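import Pool.Agent.Lib.MP_bae66e_nt.E2.H2b
import Pool.Agent.Lib.MP_bae66e_nt.Mg.G030

/-!
# Row I: the second moment for almost all `m` (port of AC/RowI)
-/

set_option autoImplicit false

namespace Pool.Agent.Lib.MP_bae66e_nt.E2

open Finset MeasureTheory Real
open Pool.Agent.E3
open Pool.Agent.Lib.MP_bae66e_nt.AP3 (prI mem_prI)

open Pool.Agent.Lib.MP_bae66e_nt.LL (fP)
open Pool.Agent.Lib.MP_bae66e_nt.AC (Sg VV one_le_Sg)

private theorem I_fP_nn (H : ℕ) (n : ℤ) : 0 ≤ fP H n := by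
  unfold fP
  split_ifs
  · exact Real.log_natCast_nonneg H
  · exact le_rfl

/-- PROOF. As `second_most` (AC/RowI), with `var_class_e`: `SE² ≤ Pm² ≤ 2 B² + 2 (Pm - B)²`; `∑_s B² ≤ #(IS R) C² Sg² V²`, and the mean of `∑_s (Pm - B)²` is at most `#(IS R) η V²` (`IS_bounds`, E3/J10). -/
theorem sece_of : ∃ C a₁ : ℝ, 1 ≤ C ∧ 3 ≤ a₁ ∧ ∀ a : ℝ, a₁ ≤ a → SECE C a := by
  classical
  obtain ⟨C₀, a₁, hC₀, ha₁, hvar⟩ := var_class_e
  obtain ⟨C₃, hC₃, hIS⟩ := IS_bounds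
  have hCC : 1 ≤ C₀ ^ 2 * C₃ := by
    have : 1 ≤ C₀ ^ 2 := one_le_pow₀ hC₀
    nlinarith
  refine ⟨4 * (C₀ ^ 2 * C₃), a₁, by linarith, ha₁, fun a ha δ hδ => ?_⟩
  obtain ⟨w₀, hw₀⟩ := hvar a ha δ hδ
  refine ⟨max w₀ 2, fun w hw => ?_⟩
  have hw2 : 2 ≤ w := (le_max_right _ _).trans hw
  obtain ⟨M₁, hM₁⟩ := hw₀ w ((le_max_left _ _).trans hw) (fun m hm => (one_le_Sg w m hw2 hm).2)
  obtain ⟨M₂, hM₂⟩ := GJ_pos a (ha₁.trans ha) 3
  refine ⟨max M₁ (max M₂ 16), fun M hM => ?_⟩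
  have hMa : M₁ ≤ M := (le_max_left _ _).trans hM
  have hMb : M₂ ≤ M := ((le_max_left _ _).trans (le_max_right _ _)).trans hM
  have hMc : 16 ≤ M := ((le_max_right _ _).trans (le_max_right _ _)).trans hM
  obtain ⟨-, -, hR3⟩ := hM₂ M hMb
  have key := hM₁ M hMa
  have hMr : (16 : ℝ) ≤ M := by exact_mod_cast hMc
  have hRr : (3 : ℝ) < RJ a M := by exact_mod_cast hR3
  have hlR : 0 < Real.log (RJ a M) := Real.log_pos (by linarith)
  have hlM : 0 < Real.log M := Real.log_pos (by linarith)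
  have hHpos : (0 : ℝ) < HJ a M := by
    have : 0 < HJ a M := by
      unfold HJ
      have : 0 < RJ a M := by omega
      positivity
    exact_mod_cast this
  have hV0 : 0 < VE a M := by
    unfold VE
    have : (0 : ℝ) < RJ a M := by linarith
    positivity
  have hU0 : 0 ≤ UE a M := by
    unfold UE
    have : (0 : ℝ) < RJ a M := by linarith
    positivity
  have hIScard : (#(IS (RJ a M)) : ℝ) ≤ C₃ * UE a M := by
    have h := (hIS (RJ a M) (by omega)).1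
    unfold UE
    calc (#(IS (RJ a M)) : ℝ) ≤ _ := h
      _ = _ := by ring
  set V : ℝ := VE a M with hV
  -- the functions
  have key' : ∀ s : ℕ, ∃ B Pm : ℕ → ℝ, s ∈ IS (RJ a M) →
      (∀ m ∈ Icc M (2 * M), SE a M s m ≤ Pm m) ∧
      (∀ m ∈ Icc M (2 * M), Even m → 0 ≤ B m ∧ B m ≤ C₀ * Sg (primorial w) m * V) ∧
      ∑ m ∈ Icc M (2 * M) with Even m, (Pm m - B m) ^ 2 ≤ δ * M * V ^ 2 := by
    intro s
    by_cases hs : s ∈ IS (RJ a M)
    · obtain ⟨B, Pm, h⟩ := key s hs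
      exact ⟨B, Pm, fun _ => h⟩
    · exact ⟨fun _ => 0, fun _ => 0, fun h => absurd h hs⟩
  choose B Pm hBP using key'
  have hS0 : ∀ s m, 0 ≤ SE a M s m := fun s m => Finset.sum_nonneg fun t _ =>
    mul_nonneg (I_fP_nn _ _) (by split_ifs <;> norm_num)
  set n : ℝ := (#(IS (RJ a M)) : ℝ) with hn
  have hn0 : 0 ≤ n := Nat.cast_nonneg _
  rcases Finset.eq_empty_or_nonempty (IS (RJ a M)) with hemp | hne
  · -- no multipliers
    have h0 : ({m ∈ Icc M (2 * M) | Even m ∧ 4 * (C₀ ^ 2 * C₃) * (Sg (primorial w) m) ^ 2 * UE a M *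
        V ^ 2 < ∑ s ∈ IS (RJ a M), (SE a M s m) ^ 2} : Finset ℕ) = ∅ := by
      rw [Finset.filter_eq_empty_iff]
      rintro m _ ⟨-, h⟩
      rw [hemp, Finset.sum_empty] at h
      have : 0 ≤ 4 * (C₀ ^ 2 * C₃) * (Sg (primorial w) m) ^ 2 * UE a M * V ^ 2 := by positivity
      linarith
    rw [h0, Finset.card_empty]
    push_cast
    positivity
  have hn1 : 0 < n := by
    rw [hn]
    exact_mod_cast hne.card_pos
  set Bad : Finset ℕ := {m ∈ (Icc M (2 * M)).filter Even |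
    n * V ^ 2 < ∑ s ∈ IS (RJ a M), (Pm s m - B s m) ^ 2} with hBad
  have hBadc : (Bad.card : ℝ) ≤ δ * M := by
    have e1 : (Bad.card : ℝ) * (n * V ^ 2) ≤
        ∑ m ∈ (Icc M (2 * M)).filter Even, ∑ s ∈ IS (RJ a M), (Pm s m - B s m) ^ 2 := by
      calc (Bad.card : ℝ) * (n * V ^ 2) = ∑ m ∈ Bad, n * V ^ 2 := by
            rw [Finset.sum_const, nsmul_eq_mul]
        _ ≤ ∑ m ∈ Bad, ∑ s ∈ IS (RJ a M), (Pm s m - B s m) ^ 2 :=
            Finset.sum_le_sum fun m hm => (Finset.mem_filter.1 hm).2.le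
        _ ≤ _ := Finset.sum_le_sum_of_subset_of_nonneg (Finset.filter_subset _ _)
            (fun _ _ _ => Finset.sum_nonneg fun _ _ => sq_nonneg _)
    have e2 : ∑ m ∈ (Icc M (2 * M)).filter Even, ∑ s ∈ IS (RJ a M), (Pm s m - B s m) ^ 2 ≤
        n * (δ * M * V ^ 2) := by
      rw [Finset.sum_comm, hn, ← nsmul_eq_mul]
      exact Finset.sum_le_card_nsmul _ _ _ fun s hs => (hBP s hs).2.2
    have e3 : (Bad.card : ℝ) * (n * V ^ 2) ≤ (δ * M) * (n * V ^ 2) := by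
      refine (e1.trans e2).trans (le_of_eq ?_)
      ring
    exact le_of_mul_le_mul_right e3 (by positivity)
  refine le_trans (Nat.cast_le.2 (Finset.card_le_card ?_)) hBadc
  intro m hm
  obtain ⟨hm1, hm2, hm3⟩ := Finset.mem_filter.1 hm
  rw [hBad, Finset.mem_filter, Finset.mem_filter]
  refine ⟨⟨hm1, hm2⟩, ?_⟩
  by_contra hcon
  rw [not_lt] at hcon
  have hSg := (one_le_Sg w m hw2 hm2).1
  have g1 : ∑ s ∈ IS (RJ a M), (SE a M s m) ^ 2 ≤ ∑ s ∈ IS (RJ a M),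
      (2 * (Pm s m - B s m) ^ 2 + 2 * (C₀ * Sg (primorial w) m * V) ^ 2) := by
    refine Finset.sum_le_sum fun s hs => ?_
    obtain ⟨h1, h2, -⟩ := hBP s hs
    have h3 : SE a M s m ≤ Pm s m := h1 m hm1
    obtain ⟨h4, h5⟩ := h2 m hm1 hm2
    have h6 : (SE a M s m) ^ 2 ≤ (Pm s m) ^ 2 := pow_le_pow_left₀ (hS0 s m) h3 2
    have h7 : (B s m) ^ 2 ≤ (C₀ * Sg (primorial w) m * V) ^ 2 := pow_le_pow_left₀ h4 h5 2
    nlinarith [sq_nonneg (Pm s m - 2 * B s m)]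
  have g2 : ∑ s ∈ IS (RJ a M), (2 * (Pm s m - B s m) ^ 2 + 2 * (C₀ * Sg (primorial w) m * V) ^ 2) ≤
      n * (4 * (C₀ * Sg (primorial w) m * V) ^ 2) := by
    rw [Finset.sum_add_distrib, ← Finset.mul_sum, Finset.sum_const, nsmul_eq_mul, ← hn]
    have h1 : V ^ 2 ≤ (C₀ * Sg (primorial w) m * V) ^ 2 := by
      apply pow_le_pow_left₀ hV0.le
      have h2 : 1 ≤ C₀ * Sg (primorial w) m := by nlinarith
      nlinarith
    have h2 : n * V ^ 2 ≤ n * (C₀ * Sg (primorial w) m * V) ^ 2 := mul_le_mul_of_nonneg_left h1 hn0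
    nlinarith
  have g3 : n * (4 * (C₀ * Sg (primorial w) m * V) ^ 2) ≤
      4 * (C₀ ^ 2 * C₃) * (Sg (primorial w) m) ^ 2 * UE a M * V ^ 2 := by
    calc n * (4 * (C₀ * Sg (primorial w) m * V) ^ 2) ≤
        (C₃ * UE a M) * (4 * (C₀ * Sg (primorial w) m * V) ^ 2) :=
          mul_le_mul_of_nonneg_right hIScard (by positivity)
      _ = _ := by ring
  linarith

end Pool.Agent.Lib.MP_bae66e_nt.E2
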