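import Pool.Agent.Lib.MP_bae66e_nt.Mg.G032
import Pool.Agent.Lib.MP_bae66e_nt.AC.RowJ
import Pool.Agent.Lib.MP_bae66e_nt.Mg.G103

/-!
# Row J: the lower bound of the first moment (port of E3/F2, E3/F3, AC/RowJ)
-/

set_option autoImplicit false

namespace Pool.Agent.Lib.MP_bae66e_nt.E2

open Finset MeasureTheory Real
open Pool.Agent.E3
open Pool.Agent.Lib.MP_bae66e_nt.AP3 (prI mem_prI)

open Pool.Agent.Lib.MP_bae66e_nt.LL (fP gW nu)
open Pool.Agent.Lib.MP_bae66e_nt.AC (Sg VV)

private theorem J_coprime {W : ℕ} {m n v : ℕ} (h : n ≡ v [MOD W])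
    (hv : IsCoprime ((m : ℤ) - (v : ℤ)) (W : ℤ)) : IsCoprime ((m : ℤ) - (n : ℤ)) (W : ℤ) := by
  have h1 : (v : ℤ) ≡ n [ZMOD W] := ((Int.natCast_modEq_iff).2 h).symm
  obtain ⟨k, hk⟩ := (Int.modEq_iff_dvd).1 h1
  have h2 : (m : ℤ) - (n : ℤ) = ((m : ℤ) - (v : ℤ)) + (W : ℤ) * (-k) := by linarith
  rw [h2, IsCoprime.add_mul_left_left_iff]
  exact hv

/-- the weights are nonnegative -/
private theorem J_fR_nonneg (a : ℝ) (M n : ℕ) : 0 ≤ fR a M n := by
  unfold fR fS
  refine Finset.sum_nonneg fun s _ => Finset.sum_nonneg fun q _ => ?_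
  split_ifs
  · unfold om gs
    exact (Real.exp_pos _).le
  · exact le_rfl

/-- `1 ≤ Sg` -/
private theorem J_Sg_one (w m : ℕ) (hw : 2 ≤ w) (hm : Even m) : 1 ≤ Sg (primorial w) m := by
  have hcard := card_classes w m hw hm
  have hWpos : 0 < primorial w := primorial_pos w
  have hWr : (0 : ℝ) < primorial w := by exact_mod_cast hWpos
  have hφ : (0 : ℝ) < Nat.totient (primorial w) := by exact_mod_cast Nat.totient_pos.2 hWpos
  have h1 : ((Nat.totient (primorial w) : ℝ)) ^ 2 / (primorial w : ℝ) ≤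
      (#(VV (primorial w) m) : ℝ) := hcard
  unfold Sg
  rw [le_div_iff₀ (by positivity), one_mul]
  rw [div_le_iff₀ hWr] at h1
  linarith

/-- PROOF. As `model_lower` (E3/F2), with `model_lower_Sg` (AC/RowJ) for the number of classes: for `1 ≤ t ≤ H`: `gW W H t = W/φ(W)` if `t` is coprime to `W`. Substitute
`n = m - t`. For `v ∈ VV W m` (`v` and `m - v` coprime to `W`) the `n ≡ v` have `t = m - n ≡ m - v` coprime to `W`. So the sum is at least
`(W/φ(W)) ∑_{v ∈ VV} ∑_{n ∈ Ico (m - H) m, n ≡ v} f n ≥ (W/φ(W)) #VV B/φ(W) = Sg B`. -/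
theorem model_lower_e (f : ℕ → ℝ) (hf : ∀ n, 0 ≤ f n) (B : ℝ) (hB : 0 ≤ B) (w m H : ℕ) (hw : 2 ≤ w) (hH : H ≤ m)
    (hv : ∀ v : ℕ, Nat.Coprime v (primorial w) →
      B / Nat.totient (primorial w) ≤ ∑ n ∈ (Ico (m - H) m).filter (fun n => n ≡ v [MOD primorial w]), f n) :
    Sg (primorial w) m * B ≤ ∑ t ∈ Icc 1 H, gW (primorial w) H (t : ℤ) * f (m - t) := by
  classical
  set W := primorial w with hW
  have hWpos : 0 < W := primorial_pos w
  have hWr : (0 : ℝ) < W := by exact_mod_cast hWpos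
  have hφ : (0 : ℝ) < Nat.totient W := by exact_mod_cast Nat.totient_pos.2 hWpos
  set κ : ℝ := (W : ℝ) / (Nat.totient W : ℝ) with hκ
  have hκ0 : 0 < κ := by positivity
  set V := (range W).filter (fun v => Nat.Coprime v W ∧ IsCoprime ((m : ℤ) - (v : ℤ)) (W : ℤ))
    with hV
  -- substitution
  have hsub : ∑ t ∈ Icc 1 H, gW W H (t : ℤ) * f (m - t) =
      ∑ n ∈ Ico (m - H) m, nu W ((m : ℤ) - (n : ℤ)) * f n := by
    refine Finset.sum_bij' (fun t _ => m - t) (fun n _ => m - n) ?_ ?_ ?_ ?_ ?_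
    · intro t ht
      rw [Finset.mem_Icc] at ht
      rw [Finset.mem_Ico]
      omega
    · intro n hn
      rw [Finset.mem_Ico] at hn
      rw [Finset.mem_Icc]
      omega
    · intro t ht
      rw [Finset.mem_Icc] at ht
      omega
    · intro n hn
      rw [Finset.mem_Ico] at hn
      omega
    · intro t ht
      rw [Finset.mem_Icc] at ht
      have h1 : (m : ℤ) - ((m - t : ℕ) : ℤ) = t := by
        rw [Nat.cast_sub (by omega)]
        ring
      rw [h1]
      unfold gW
      rw [if_pos ⟨by exact_mod_cast ht.1, by exact_mod_cast ht.2⟩]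
  rw [hsub]
  -- sorting
  have hpt : ∀ n ∈ Ico (m - H) m, (∑ v ∈ V, if n ≡ v [MOD W] then κ * f n else 0) ≤
      nu W ((m : ℤ) - (n : ℤ)) * f n := by
    intro n _
    have hfn := hf n
    by_cases hn : n % W ∈ V
    · rw [Finset.sum_eq_single (n % W)]
      · rw [if_pos (Nat.mod_modEq n W).symm]
        rw [hV, Finset.mem_filter] at hn
        have h1 : IsCoprime ((m : ℤ) - (n : ℤ)) (W : ℤ) :=
          J_coprime (Nat.mod_modEq n W).symm hn.2.2
        unfold nu
        rw [if_pos h1]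
      · intro v hv' hne
        rw [if_neg]
        intro h
        apply hne
        rw [hV, Finset.mem_filter, Finset.mem_range] at hv'
        have h2 : n % W = v % W := h
        rw [Nat.mod_eq_of_lt hv'.1] at h2
        exact h2.symm
      · intro h
        exact absurd hn h
    · rw [Finset.sum_eq_zero]
      · apply mul_nonneg _ hfn
        unfold nu
        split_ifs
        · exact hκ0.le
        · exact le_rfl
      · intro v hv'
        rw [if_neg]
        intro h
        apply hn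
        have h2 : n % W = v % W := h
        rw [h2]
        have h3 := hv'
        rw [hV, Finset.mem_filter, Finset.mem_range] at h3
        rw [Nat.mod_eq_of_lt h3.1]
        exact hv'
  refine le_trans ?_ (Finset.sum_le_sum hpt)
  rw [Finset.sum_comm]
  have hin : ∀ v ∈ V, κ * (B / Nat.totient W) ≤
      ∑ n ∈ Ico (m - H) m, if n ≡ v [MOD W] then κ * f n else 0 := by
    intro v hv'
    rw [hV, Finset.mem_filter] at hv'
    rw [← Finset.sum_filter, ← Finset.mul_sum]
    exact mul_le_mul_of_nonneg_left (hv v hv'.2.1) hκ0.le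
  refine le_trans ?_ (Finset.sum_le_sum hin)
  rw [Finset.sum_const, nsmul_eq_mul]
  refine le_of_eq ?_
  have hVV : AC.VV W m = V := rfl
  unfold Sg
  rw [hVV, hκ]
  field_simp

/-- PROOF. As `first_most` (AC/RowJ) and `pos_of` (E3/F3): `WINE` for the classes `v < W` coprime to `W` (other `v` by `v % W`), `model_lower_e` with `B = c₀ GE`, `1 ≤ Sg` for even `m`
(`one_le_Sg` of AC/RowI or `RJ_Sg_one` of AC/RowJ), `VARE` with a small `η` and Chebyshev: `∑ fP f ≥ Sg B - (c₀/2) GE ≥ (c₀/2) Sg GE`. -/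
theorem fire_of (c₀ : ℝ) (hc₀ : 0 < c₀) (a : ℝ) (ha : 3 ≤ a) (h1 : WINE c₀ a) (h2 : VARE a) : FIRE c₀ a := by
  classical
  intro δ hδ
  have hη : 0 < c₀ ^ 2 * δ / 16 := by positivity
  obtain ⟨w₀, hvar⟩ := h2 _ hη
  refine ⟨max w₀ 2, fun w hw => ?_⟩
  have hw2 : 2 ≤ w := (le_max_right _ _).trans hw
  obtain ⟨X₁, hX₁⟩ := hvar w ((le_max_left _ _).trans hw)
  set W := primorial w with hW
  have hWpos : 0 < W := primorial_pos w
  have hWr : (0 : ℝ) < (W : ℝ) := by exact_mod_cast hWpos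
  obtain ⟨X₂, hX₂⟩ := h1 W hWpos (δ / (2 * W)) (by positivity)
  obtain ⟨X₃, hX₃⟩ := GJ_pos a ha w
  refine ⟨max X₁ (max X₂ (max X₃ 1)), fun X hX => ?_⟩
  have hXa : X₁ ≤ X := le_trans (le_max_left _ _) hX
  have hXb : X₂ ≤ X := le_trans (le_trans (le_max_left _ _) (le_max_right _ _)) hX
  have hXc : X₃ ≤ X := le_trans (le_trans (le_trans (le_max_left _ _) (le_max_right _ _))
    (le_max_right _ _)) hX
  have hXd : 1 ≤ X := le_trans (le_trans (le_trans (le_max_right _ _) (le_max_right _ _))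
    (le_max_right _ _)) hX
  obtain ⟨hGpos, hHX, hwR⟩ := hX₃ X hXc
  have hGE : 0 < GE a X := by
    have hR0 : (0 : ℝ) < RJ a X := by exact_mod_cast (by omega : 0 < RJ a X)
    have e : GJ a X = RJ a X * GE a X := by
      unfold GJ GE FR
      ring
    rw [e] at hGpos
    exact (pos_iff_pos_of_mul_pos hGpos).1 hR0
  have hV := hX₁ X hXa
  have hWin := hX₂ X hXb
  have hXr : (0 : ℝ) < (X : ℝ) := by exact_mod_cast hXd
  set H := HJ a X with hH
  set B := c₀ * GE a X with hB
  have hBpos : 0 < B := mul_pos hc₀ hGE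
  -- the exceptional sets
  set E : ℕ → Finset ℕ := fun v => {m ∈ Icc X (2 * X) |
    ∑ n ∈ (Ico (m - H) m).filter (fun n => n ≡ v [MOD W]), fR a X n < B / Nat.totient W} with hE
  set D : ℕ → ℝ := fun m => ∑ t ∈ Icc 1 H, (fP H (t : ℤ) - gW W H (t : ℤ)) * fR a X (m - t) with hD
  set Z : Finset ℕ := {m ∈ Icc X (2 * X) | B / 2 ≤ |D m|} with hZ
  set V : Finset ℕ := {v ∈ range W | Nat.Coprime v W} with hVd
  have hEcard : ∀ v ∈ V, ((E v).card : ℝ) ≤ δ / (2 * W) * X := by
    intro v hv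
    have hv' := (Finset.mem_filter.1 hv).2
    exact hWin v hv'
  have hZcard : (Z.card : ℝ) ≤ δ / 4 * X := by
    have e1 : (Z.card : ℝ) * (B / 2) ^ 2 ≤ ∑ m ∈ Icc X (2 * X), (D m) ^ 2 := by
      calc (Z.card : ℝ) * (B / 2) ^ 2 = ∑ m ∈ Z, (B / 2) ^ 2 := by
            rw [Finset.sum_const, nsmul_eq_mul]
        _ ≤ ∑ m ∈ Z, (D m) ^ 2 := by
            apply Finset.sum_le_sum
            intro m hm
            have h := (Finset.mem_filter.1 hm).2
            rw [← sq_abs (D m)]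
            exact pow_le_pow_left₀ (by positivity) h 2
        _ ≤ _ := Finset.sum_le_sum_of_subset_of_nonneg (Finset.filter_subset _ _)
            (fun _ _ _ => sq_nonneg _)
    have e2 : (Z.card : ℝ) * (B / 2) ^ 2 ≤ c₀ ^ 2 * δ / 16 * X * (GE a X) ^ 2 :=
      e1.trans hV
    have e3 : c₀ ^ 2 * δ / 16 * X * (GE a X) ^ 2 = (δ / 4 * X) * (B / 2) ^ 2 := by
      rw [hB]; ring
    rw [e3] at e2
    exact le_of_mul_le_mul_right e2 (by positivity)
  have hsub : ({m ∈ Icc X (2 * X) | Even m ∧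
      ∑ t ∈ Icc 1 H, fP H (t : ℤ) * fR a X (m - t) < c₀ / 2 * Sg W m * GE a X} : Finset ℕ) ⊆
        V.biUnion E ∪ Z := by
    intro m hm
    obtain ⟨hm1, hm2, hm3⟩ := Finset.mem_filter.1 hm
    by_contra hcon
    rw [Finset.mem_union, not_or] at hcon
    obtain ⟨hc1, hc2⟩ := hcon
    have hmX : X ≤ m := (Finset.mem_Icc.1 hm1).1
    have key : Sg W m * B ≤ ∑ t ∈ Icc 1 H, gW W H (t : ℤ) * fR a X (m - t) := by
      apply model_lower_e (fR a X) (J_fR_nonneg a X) B hBpos.le w m H hw2 (hHX.trans hmX)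
      intro v hv
      have hv' : v % W ∈ V := by
        rw [hVd, Finset.mem_filter, Finset.mem_range]
        refine ⟨Nat.mod_lt _ hWpos, ?_⟩
        have : Nat.gcd (v % W) W = Nat.gcd W v := (Nat.gcd_rec W v).symm
        rw [Nat.Coprime, this, Nat.gcd_comm]
        exact hv
      have h5 : m ∉ E (v % W) := fun h => hc1 (Finset.mem_biUnion.2 ⟨_, hv', h⟩)
      rw [hE] at h5
      simp only [Finset.mem_filter, not_and, not_lt] at h5
      have h6 := h5 hm1
      have h7 : (Ico (m - H) m).filter (fun n => n ≡ v % W [MOD W]) =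
          (Ico (m - H) m).filter (fun n => n ≡ v [MOD W]) := by
        apply Finset.filter_congr
        intro n _
        constructor
        · intro h; exact h.trans (Nat.mod_modEq v W)
        · intro h; exact h.trans (Nat.mod_modEq v W).symm
      rw [h7] at h6
      exact h6
    have hD1 : |D m| < B / 2 := by
      by_contra h
      exact hc2 (Finset.mem_filter.2 ⟨hm1, not_lt.1 h⟩)
    have hD2 : D m = ∑ t ∈ Icc 1 H, fP H (t : ℤ) * fR a X (m - t) -
        ∑ t ∈ Icc 1 H, gW W H (t : ℤ) * fR a X (m - t) := by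
      rw [hD, ← Finset.sum_sub_distrib]
      apply Finset.sum_congr rfl
      intro t _
      ring
    have := (abs_lt.1 hD1).1
    rw [hD2] at this
    have hBG : c₀ / 2 * Sg W m * GE a X = Sg W m * B / 2 := by rw [hB]; ring
    rw [hBG] at hm3
    have hSg : 1 ≤ Sg W m := J_Sg_one w m hw2 hm2
    have hSB : B ≤ Sg W m * B := le_mul_of_one_le_left hBpos.le hSg
    linarith
  have hVcard : (V.card : ℝ) ≤ W := by
    have : V.card ≤ (range W).card := Finset.card_filter_le _ _
    rw [Finset.card_range] at this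
    exact_mod_cast this
  calc (#{m ∈ Icc X (2 * X) | Even m ∧
        ∑ t ∈ Icc 1 H, fP H (t : ℤ) * fR a X (m - t) < c₀ / 2 * Sg W m * GE a X} : ℝ)
      ≤ ((V.biUnion E ∪ Z).card : ℝ) := by exact_mod_cast Finset.card_le_card hsub
    _ ≤ ((V.biUnion E).card : ℝ) + (Z.card : ℝ) := by exact_mod_cast Finset.card_union_le _ _
    _ ≤ (∑ v ∈ V, ((E v).card : ℝ)) + (Z.card : ℝ) := by
        have : (V.biUnion E).card ≤ ∑ v ∈ V, (E v).card := Finset.card_biUnion_le
        have h' : ((V.biUnion E).card : ℝ) ≤ ∑ v ∈ V, ((E v).card : ℝ) := by exact_mod_cast this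
        linarith
    _ ≤ (∑ v ∈ V, δ / (2 * W) * X) + δ / 4 * X := by
        have := Finset.sum_le_sum hEcard
        linarith
    _ = (V.card : ℝ) * (δ / (2 * W) * X) + δ / 4 * X := by rw [Finset.sum_const, nsmul_eq_mul]
    _ ≤ (W : ℝ) * (δ / (2 * W) * X) + δ / 4 * X := by
        have := mul_le_mul_of_nonneg_right hVcard (by positivity : 0 ≤ δ / (2 * W) * X)
        linarith
    _ ≤ δ * X := by
        have e : (W : ℝ) * (δ / (2 * W) * X) = δ / 2 * X := by field_simp
        rw [e]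
        nlinarith

end Pool.Agent.Lib.MP_bae66e_nt.E2
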