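import Pool.Agent.Lib.MP_bae66e_nt.Mg.G032
import Pool.Agent.Lib.MP_bae66e_nt.Mg.G030
import Pool.Agent.Lib.MP_bae66e_nt.Mg.G002

/-!
# Row K1: many `s` (port of AC/RowK `many_abs_of`)
-/

set_option autoImplicit false

namespace Pool.Agent.Lib.MP_bae66e_nt.E2

open Finset MeasureTheory Real
open Pool.Agent.E3
open Pool.Agent.Lib.MP_bae66e_nt.AP3 (prI mem_prI)

open Pool.Agent.Lib.MP_bae66e_nt.LL (fP)
open Pool.Agent.Lib.MP_bae66e_nt.AC (Sg one_le_Sg)

/-- PROOF. Exchange the sums: `fR (m - t) = ∑_{s ∈ IS R} ∑_{q ∈ QS M} [s q = m - t] om q`, for given `s`, `t` at most one `q`, and `om ≤ 1` (`om_bounds`, E3/A2a). -/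
theorem first_le (a : ℝ) (M m : ℕ) :
    ∑ t ∈ Icc 1 (HJ a M), fP (HJ a M) (t : ℤ) * fR a M (m - t) ≤ ∑ s ∈ IS (RJ a M), SE a M s m := by
  classical
  unfold SE
  rw [Finset.sum_comm]
  refine Finset.sum_le_sum fun t _ => ?_
  rw [← Finset.mul_sum]
  refine mul_le_mul_of_nonneg_left ?_ ?_
  · unfold fR fS
    refine Finset.sum_le_sum fun s hs => ?_
    have hs0 : 0 < s := (mem_prI.mp hs).2.pos
    by_cases h : s ∣ m - t ∧ ((m - t) / s).Prime
    · rw [if_pos h]
      calc ∑ q ∈ QS M, (if s * q = m - t then om (YR (RJ a M) M) q else 0)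
          ≤ ∑ q ∈ QS M, (if q = (m - t) / s then (1 : ℝ) else 0) := by
            refine Finset.sum_le_sum fun q _ => ?_
            by_cases hq : s * q = m - t
            · have h2 : q = (m - t) / s := by
                rw [← hq, Nat.mul_div_cancel_left q hs0]
              rw [if_pos hq, if_pos h2]
              exact (om_bounds _ q).2
            · rw [if_neg hq]
              split_ifs
              · exact zero_le_one
              · exact le_rfl
        _ ≤ 1 := by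
            rw [Finset.sum_ite_eq']
            split_ifs
            · exact le_rfl
            · exact zero_le_one
    · rw [if_neg h]
      refine le_of_eq (Finset.sum_eq_zero fun q hq => ?_)
      rw [if_neg]
      intro hq2
      refine h ⟨⟨q, hq2.symm⟩, ?_⟩
      rw [← hq2, Nat.mul_div_cancel_left q hs0]
      exact (mem_prI.mp hq).2
  · unfold fP
    split_ifs
    · exact Real.log_natCast_nonneg _
    · exact le_rfl

/-- PROOF. As `many_abs_of` (AC/RowK): `GE = UE VE` for large `M`, `#(IS R) ≤ C₃ UE` (`IS_bounds`, E3/J10), `τ = c₀/(4 C₃)`. Outside the sets of `FIRE` and `SECE` (same `w`, `δ/2` each) the `s` outside `GQE` contribute at most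
`#IS τ V ≤ (c₀/4) U V`, so `((c₀/4) Sg U V)² ≤ (∑_{GQE} SE)² ≤ #GQE · C Sg² U V²`, `#GQE ≥ (c₀²/(16 C)) U`. -/
theorem many_e (c₀ C : ℝ) (hc₀ : 0 < c₀) (hC : 1 ≤ C) : ∃ c τ : ℝ, 0 < c ∧ 0 < τ ∧ ∀ a : ℝ, 3 ≤ a →
    FIRE c₀ a → SECE C a → ∀ δ : ℝ, 0 < δ → ∃ M₀ : ℕ, ∀ M : ℕ, M₀ ≤ M →
      (#{m ∈ Icc M (2 * M) | Even m ∧ ((GQE a τ M m).card : ℝ) < c * UE a M} : ℝ) ≤ δ * M := by
  classical
  obtain ⟨C₃, hC₃, hIS⟩ := IS_bounds
  refine ⟨c₀ ^ 2 / (16 * C), c₀ / (4 * C₃), by positivity, by positivity, fun a ha3 h1 h2 δ hδ => ?_⟩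
  obtain ⟨w₁, hw₁⟩ := h1 (δ / 2) (by positivity)
  obtain ⟨w₂, hw₂⟩ := h2 (δ / 2) (by positivity)
  set w := max (max w₁ w₂) 2 with hw
  have hw2 : 2 ≤ w := le_max_right _ _
  obtain ⟨M₁, hpos⟩ := hw₁ w ((le_max_left _ _).trans (le_max_left _ _))
  obtain ⟨M₂, hsec⟩ := hw₂ w ((le_max_right _ _).trans (le_max_left _ _))
  obtain ⟨M₃, hG⟩ := GJ_pos a ha3 3
  refine ⟨max M₁ (max M₂ (max M₃ 16)), fun M hM => ?_⟩
  have hMa : M₁ ≤ M := (le_max_left _ _).trans hM
  have hMb : M₂ ≤ M := ((le_max_left _ _).trans (le_max_right _ _)).trans hM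
  have hMc : M₃ ≤ M := ((le_max_left _ _).trans ((le_max_right _ _).trans (le_max_right _ _))).trans hM
  have hMd : 16 ≤ M := ((le_max_right _ _).trans ((le_max_right _ _).trans (le_max_right _ _))).trans hM
  obtain ⟨hG0, hHM, hR3⟩ := hG M hMc
  have hAc := hpos M hMa
  have hZc := hsec M hMb
  have hIScard := (hIS (RJ a M) (by omega)).1
  set R := RJ a M with hR
  set H := HJ a M with hH
  have hMr : (16 : ℝ) ≤ M := by exact_mod_cast hMd
  have hMpos : (0 : ℝ) < M := by linarith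
  have hRr : (3 : ℝ) < R := by exact_mod_cast hR3
  have hlR : 0 < Real.log R := Real.log_pos (by linarith)
  have hlM : 0 < Real.log M := Real.log_pos (by linarith)
  have hHpos : (0 : ℝ) < H := by
    have : 0 < H := by
      rw [hH]
      unfold HJ
      have : 0 < RJ a M := by omega
      positivity
    exact_mod_cast this
  set U : ℝ := R / Real.log R with hU
  set V : ℝ := H / (R * Real.log M) with hV
  set τ : ℝ := c₀ / (4 * C₃) with hτ
  have hU0 : 0 < U := by positivity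
  have hV0 : 0 < V := by positivity
  have hτ0 : 0 < τ := by positivity
  have hR0 : (0 : ℝ) < R := by linarith
  have hGUV : GE a M = U * V := by
    unfold GE FR
    rw [hU, hV, ← hR, ← hH]
    field_simp
  have hIScard' : (#(IS R) : ℝ) ≤ C₃ * U := by
    refine hIScard.trans (le_of_eq ?_)
    rw [hU]
    ring
  set S : ℕ → ℕ → ℝ := fun s m => SE a M s m
    with hS
  set A : Finset ℕ := {m ∈ Icc M (2 * M) | Even m ∧ ∑ t ∈ Icc 1 H, fP H (t : ℤ) * fR a M (m - t) <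
    c₀ / 2 * Sg (primorial w) m * GE a M} with hA
  set Z : Finset ℕ := {m ∈ Icc M (2 * M) | Even m ∧ C * (Sg (primorial w) m) ^ 2 * U * V ^ 2 < ∑ s ∈ IS R, (S s m) ^ 2} with hZ
  have hAc' : (A.card : ℝ) ≤ δ / 2 * M := hAc
  have hZc' : (Z.card : ℝ) ≤ δ / 2 * M := hZc
  have hsub : ({m ∈ Icc M (2 * M) | Even m ∧
      ((GQE a τ M m).card : ℝ) < c₀ ^ 2 / (16 * C) * UE a M} : Finset ℕ) ⊆ A ∪ Z := by
    intro m hm
    obtain ⟨hm1, hm2, hm3⟩ := Finset.mem_filter.1 hm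
    by_contra hcon
    rw [Finset.mem_union, not_or] at hcon
    obtain ⟨hn1, hn2⟩ := hcon
    have hSg := (one_le_Sg w m hw2 hm2).1
    set σ : ℝ := Sg (primorial w) m with hσ
    have g1 : c₀ / 2 * σ * GE a M ≤ ∑ s ∈ IS R, S s m := by
      by_contra h
      exact hn1 (Finset.mem_filter.2 ⟨hm1, hm2, (first_le a M m).trans_lt (not_le.1 h)⟩)
    have g2 : ∑ s ∈ IS R, (S s m) ^ 2 ≤ C * σ ^ 2 * U * V ^ 2 := by
      by_contra h
      exact hn2 (Finset.mem_filter.2 ⟨hm1, hm2, not_le.1 h⟩)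
    have hGQ : GQE a τ M m = (IS R).filter fun s => τ * V ≤ S s m := rfl
    have g3 : ∑ s ∈ IS R, S s m ≤ (∑ s ∈ GQE a τ M m, S s m) + c₀ / 4 * (U * V) := by
      rw [hGQ, ← Finset.sum_filter_add_sum_filter_not (IS R) (fun s => τ * V ≤ S s m)]
      have k1 : ∑ s ∈ (IS R).filter (fun s => ¬ τ * V ≤ S s m), S s m ≤ (#(IS R) : ℝ) * (τ * V) := by
        have k2 : ∑ s ∈ (IS R).filter (fun s => ¬ τ * V ≤ S s m), S s m ≤
            (#((IS R).filter (fun s => ¬ τ * V ≤ S s m)) : ℝ) * (τ * V) := by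
          rw [← nsmul_eq_mul]
          exact Finset.sum_le_card_nsmul _ _ _ fun s hs => (not_le.1 (Finset.mem_filter.1 hs).2).le
        refine k2.trans (mul_le_mul_of_nonneg_right ?_ (by positivity))
        exact_mod_cast Finset.card_filter_le _ _
      have k3 : (#(IS R) : ℝ) * (τ * V) ≤ c₀ / 4 * (U * V) := by
        calc (#(IS R) : ℝ) * (τ * V) ≤ (C₃ * U) * (τ * V) :=
              mul_le_mul_of_nonneg_right hIScard' (by positivity)
          _ = c₀ / 4 * (U * V) := by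
              rw [hτ]
              field_simp
      linarith
    have g4 : (∑ s ∈ GQE a τ M m, S s m) ^ 2 ≤ ((GQE a τ M m).card : ℝ) * ∑ s ∈ GQE a τ M m, (S s m) ^ 2 :=
      sq_sum_le_card_mul_sum_sq
    have g5 : ∑ s ∈ GQE a τ M m, (S s m) ^ 2 ≤ ∑ s ∈ IS R, (S s m) ^ 2 :=
      Finset.sum_le_sum_of_subset_of_nonneg (by rw [hGQ]; exact Finset.filter_subset _ _) fun _ _ _ => sq_nonneg _
    have hσ0 : 0 < σ := by linarith
    have g55 : c₀ / 4 * σ * (U * V) ≤ ∑ s ∈ GQE a τ M m, S s m := by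
      rw [hGUV] at g1
      have k4 : c₀ / 4 * (U * V) ≤ c₀ / 4 * σ * (U * V) := by
        have : 0 ≤ c₀ / 4 * (U * V) := by positivity
        nlinarith
      linarith
    have g6 : (c₀ / 4 * σ * (U * V)) ^ 2 ≤ ((GQE a τ M m).card : ℝ) * (C * σ ^ 2 * U * V ^ 2) := by
      calc (c₀ / 4 * σ * (U * V)) ^ 2 ≤ (∑ s ∈ GQE a τ M m, S s m) ^ 2 :=
            pow_le_pow_left₀ (by positivity) g55 2
        _ ≤ ((GQE a τ M m).card : ℝ) * ∑ s ∈ GQE a τ M m, (S s m) ^ 2 := g4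
        _ ≤ ((GQE a τ M m).card : ℝ) * (C * σ ^ 2 * U * V ^ 2) :=
            mul_le_mul_of_nonneg_left (g5.trans g2) (Nat.cast_nonneg _)
    have g7 : (c₀ ^ 2 / (16 * C) * U) * (C * σ ^ 2 * U * V ^ 2) ≤ ((GQE a τ M m).card : ℝ) * (C * σ ^ 2 * U * V ^ 2) := by
      refine le_trans (le_of_eq ?_) g6
      field_simp
      ring
    have g8 := le_of_mul_le_mul_right g7 (by positivity)
    have hUE : UE a M = U := rfl
    rw [hUE] at hm3
    linarith
  calc (#{m ∈ Icc M (2 * M) | Even m ∧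
      ((GQE a τ M m).card : ℝ) < c₀ ^ 2 / (16 * C) * UE a M} : ℝ)
      ≤ ((A ∪ Z).card : ℝ) := by exact_mod_cast Finset.card_le_card hsub
    _ ≤ (A.card : ℝ) + (Z.card : ℝ) := by exact_mod_cast Finset.card_union_le _ _
    _ ≤ δ * M := by linarith

end Pool.Agent.Lib.MP_bae66e_nt.E2
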