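import Pool.Agent.Lib.MP_bae66e_nt.Mg.G032
import Pool.Agent.Lib.MP_bae66e_nt.AC.RowK

/-!
# Row K2: from the dyadic scale to `z = 2 (log m)^a` (port of AC/RowK `GQ_good`)
-/

set_option autoImplicit false

namespace Pool.Agent.Lib.MP_bae66e_nt.E2

open Finset MeasureTheory Real
open Pool.Agent.E3
open Pool.Agent.Lib.MP_bae66e_nt
open Pool.Agent.Lib.MP_bae66e_nt.LL (fP)
open Pool.Agent.Lib.MP_bae66e_nt.AC (sizes8)
open Pool.Agent.Lib.MP_bae66e_nt.AP3 (prI mem_prI)

/-- PROOF. `sizes8` (AC/RowK): `2R ≤ z ≤ 8R`. `s ≤ 2R ≤ z`. If `SE ≥ τ V` the number of the primes `t ≤ H` with `m = t + s q`, `q` prime, is at least `τ V/log H`, `H ≤ z² ≤ 32 H`, and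
`π(z²)/(z log m) ≤ 320 (H/log H)/(2 R log M)` as in `GQ_good`. The second part is that of `GQ_good`. -/
theorem GQE_good (a τ : ℝ) (ha : 3 ≤ a) (hτ : 0 < τ) : ∃ M₀ : ℕ, ∀ M m : ℕ, M₀ ≤ M → M ≤ m → m ≤ 2 * M →
    GQE a τ M m ⊆ goodR (τ / 320) m (2 * (Real.log m) ^ a) ∧
    (Nat.primeCounting ⌊2 * (Real.log m) ^ a⌋₊ : ℝ) ≤ 80 * UE a M := by
  classical
  obtain ⟨M₀, hM₀⟩ := sizes8 a ha
  refine ⟨M₀, fun M m hM hm hm2 => ?_⟩
  obtain ⟨hL, hLm, hR4, hRz, hzR⟩ := hM₀ M m hM hm hm2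
  set R := RJ a M with hR
  set z : ℝ := 2 * (Real.log m) ^ a with hz
  have hHdef : HJ a M = 2 * R ^ 2 := rfl
  set H := HJ a M with hH
  have hHr : (H : ℝ) = 2 * (R : ℝ) ^ 2 := by
    rw [hHdef]
    push_cast
    ring
  have hz0 : 0 < z := by linarith
  have hHz : (H : ℝ) ≤ z ^ 2 := by
    rw [hHr]
    nlinarith
  have hzH : z ^ 2 ≤ 32 * (H : ℝ) := by
    rw [hHr]
    nlinarith
  have hHfl : H ≤ ⌊z ^ 2⌋₊ := Nat.le_floor hHz
  have hH32 : (32 : ℝ) ≤ H := by
    rw [hHr]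
    nlinarith
  have hH2 : 2 ≤ H := by
    have : (2 : ℝ) ≤ H := by linarith
    exact_mod_cast this
  have hlH : 0 < Real.log H := Real.log_pos (by linarith)
  have hlM : 0 < Real.log M := by linarith
  have hpiH : (Nat.primeCounting ⌊z ^ 2⌋₊ : ℝ) ≤ 160 * H / Real.log H := by
    have h1 := pi_upper ⌊z ^ 2⌋₊ (hH2.trans hHfl)
    have h2 : (⌊z ^ 2⌋₊ : ℝ) ≤ z ^ 2 := Nat.floor_le (by positivity)
    have h3 : Real.log H ≤ Real.log (⌊z ^ 2⌋₊ : ℝ) := Real.log_le_log (by linarith) (by exact_mod_cast hHfl)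
    refine h1.trans ?_
    calc 5 * (⌊z ^ 2⌋₊ : ℝ) / Real.log (⌊z ^ 2⌋₊ : ℝ) ≤ 5 * (32 * H) / Real.log H := by
          gcongr
          linarith
      _ = 160 * H / Real.log H := by ring
  refine ⟨?_, ?_⟩
  · intro s hs
    unfold GQE SE VE at hs
    obtain ⟨hs1, hs2⟩ := Finset.mem_filter.1 hs
    have hs' : s.Prime ∧ s ≤ 2 * R := by
      unfold IS at hs1
      simp only [Pool.Agent.Lib.MP_bae66e_nt.AP3.prI, Finset.mem_filter, Finset.mem_Ioc] at hs1
      exact ⟨hs1.2, hs1.1.2⟩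
    unfold goodR
    rw [Finset.mem_filter, Finset.mem_Icc]
    refine ⟨⟨hs'.1.one_lt.le, ?_⟩, hs'.1, ?_⟩
    · apply Nat.le_floor
      have : (s : ℝ) ≤ ((2 * R : ℕ) : ℝ) := by exact_mod_cast hs'.2
      push_cast at this
      linarith
    -- the number of representations
    have h1 : ∑ t ∈ Icc 1 H, fP H (t : ℤ) * (if s ∣ m - t ∧ ((m - t) / s).Prime then (1 : ℝ) else 0) ≤
        Real.log H * (reps m s (z ^ 2) : ℝ) := by
      have h2 : ∀ t ∈ Icc 1 H, fP H (t : ℤ) * (if s ∣ m - t ∧ ((m - t) / s).Prime then (1 : ℝ) else 0) ≤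
          if ((t : ℕ).Prime ∧ (s ∣ m - t ∧ ((m - t) / s).Prime)) then Real.log H else 0 := by
        intro t _
        by_cases hp : t.Prime
        · by_cases hq : s ∣ m - t ∧ ((m - t) / s).Prime
          · have h5 : (if (t.Prime ∧ (s ∣ m - t ∧ ((m - t) / s).Prime)) then Real.log (H : ℝ) else 0) = Real.log H :=
              if_pos ⟨hp, hq⟩
            rw [h5, if_pos hq, mul_one]
            unfold fP
            split_ifs
            · exact le_rfl
            · exact hlH.le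
          · have h5 : (if (t.Prime ∧ (s ∣ m - t ∧ ((m - t) / s).Prime)) then Real.log (H : ℝ) else 0) = 0 :=
              if_neg fun h => hq h.2
            rw [h5, if_neg hq, mul_zero]
        · have h5 : (if (t.Prime ∧ (s ∣ m - t ∧ ((m - t) / s).Prime)) then Real.log (H : ℝ) else 0) = 0 :=
            if_neg fun h => hp h.1
          rw [h5]
          have h6 : fP H (t : ℤ) = 0 := by
            unfold fP
            rw [if_neg]
            rintro ⟨-, -, h⟩
            exact hp (by simpa using h)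
          rw [h6, zero_mul]
      refine (Finset.sum_le_sum h2).trans ?_
      rw [← Finset.sum_filter, Finset.sum_const, nsmul_eq_mul, mul_comm]
      refine mul_le_mul_of_nonneg_left ?_ hlH.le
      refine Nat.cast_le.2 (Finset.card_le_card fun t ht => ?_)
      rw [Finset.mem_filter, Finset.mem_Icc] at ht ⊢
      obtain ⟨⟨ht1, ht2⟩, ht3, ht4⟩ := ht
      refine ⟨⟨ht1, ht2.trans hHfl⟩, ht3, (m - t) / s, ht4.2, ?_⟩
      rw [Nat.mul_div_cancel' ht4.1]
      have h8 : 0 < (m - t) / s := ht4.2.pos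
      have h9 : 0 < m - t := by
        by_contra hc
        have h10 : m - t = 0 := by omega
        rw [h10, Nat.zero_div] at h8
        exact lt_irrefl _ h8
      omega
    have hR0 : (0 : ℝ) < R := by linarith
    have h3 : τ * (H / (R * Real.log M)) ≤ Real.log H * (reps m s (z ^ 2) : ℝ) := hs2.trans h1
    have h4 : (Nat.primeCounting ⌊z ^ 2⌋₊ : ℝ) / (z * Real.log m) ≤ (160 * H / Real.log H) / ((2 * R) * Real.log M) := by
      apply div_le_div₀ (by positivity) hpiH (by positivity)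
      exact mul_le_mul (by linarith) hLm hlM.le hz0.le
    calc τ / 320 * ((Nat.primeCounting ⌊z ^ 2⌋₊ : ℝ) / (z * Real.log m)) ≤
        τ / 320 * ((160 * H / Real.log H) / ((2 * R) * Real.log M)) := mul_le_mul_of_nonneg_left h4 (by positivity)
      _ = τ * (H / (R * Real.log M)) / Real.log H / 4 := by
          field_simp
          norm_num
      _ ≤ τ * (H / (R * Real.log M)) / Real.log H := by
          have : 0 ≤ τ * (H / (R * Real.log M)) / Real.log H := by positivity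
          linarith
      _ ≤ (Real.log H * (reps m s (z ^ 2) : ℝ)) / Real.log H := div_le_div_of_nonneg_right h3 hlH.le
      _ = (reps m s (z ^ 2) : ℝ) := by field_simp
  · have hRfl : R ≤ ⌊z⌋₊ := Nat.le_floor (by linarith)
    have hR2 : 2 ≤ R := by
      have : (2 : ℝ) ≤ R := by linarith
      exact_mod_cast this
    have h1 := pi_upper ⌊z⌋₊ (hR2.trans hRfl)
    have h2 : (⌊z⌋₊ : ℝ) ≤ z := Nat.floor_le hz0.le
    have h3 : Real.log R ≤ Real.log (⌊z⌋₊ : ℝ) := Real.log_le_log (by linarith) (by exact_mod_cast hRfl)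
    have hlR : 0 < Real.log R := Real.log_pos (by linarith)
    refine h1.trans ?_
    unfold UE
    rw [← hR]
    calc 5 * (⌊z⌋₊ : ℝ) / Real.log (⌊z⌋₊ : ℝ) ≤ 5 * (8 * R) / Real.log R := by
          gcongr
          linarith
      _ = 40 * (R / Real.log R) := by ring
      _ ≤ 80 * (R / Real.log R) := by
          have : 0 ≤ (R : ℝ) / Real.log R := by positivity
          linarith

/-- PROOF. As `goodR_anti` (AC/RowK): `0 ≤ π(z²)/(z log m)`. -/
theorem goodR_anti_e {c c' : ℝ} (h : c ≤ c') {m : ℕ} (hm : 1 ≤ m) (z : ℝ) (hz : 0 < z) : goodR c' m z ⊆ goodR c m z := by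
  classical
  intro r hr
  unfold goodR at hr ⊢
  rw [Finset.mem_filter] at hr ⊢
  refine ⟨hr.1, hr.2.1, le_trans ?_ hr.2.2⟩
  exact mul_le_mul_of_nonneg_right h
    (div_nonneg (Nat.cast_nonneg _) (mul_nonneg hz.le (Real.log_natCast_nonneg m)))

end Pool.Agent.Lib.MP_bae66e_nt.E2
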