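import Pool.Agent.Lib.MP_bae66e_nt.Mg.G032
import Pool.Agent.Lib.MP_bae66e_nt.E3.P4
import Pool.Agent.Lib.MP_bae66e_nt.Mg.G037

/-!
# Row P: long windows in progressions (port of E3/P4)
-/

set_option autoImplicit false

namespace Pool.Agent.Lib.MP_bae66e_nt.E2

open Finset MeasureTheory Real
open Pool.Agent.E3
open Pool.Agent.Lib.MP_bae66e_nt.AP3 (prI mem_prI)

/-- PROOF. As `pap2` (E3/P4): `c₁ = exp (-16)/8`. `one_s` (E3/P2) for each `s ∈ IS R` (`s` is a prime `> R ≥ W`, so coprime to `W`; `s ≤ 2R ≤ X^(1/10)`;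
`X/s ≤ X/R = YR ≤ 4X/s`), and `recip_IS_ge` (E3/P3). -/
theorem pape : ∃ c₁ : ℝ, 0 < c₁ ∧ PAPE c₁ := by
  refine ⟨Real.exp (-16) / 8, by positivity, ?_⟩
  intro a ha W hW L hL hL1
  obtain ⟨R₀, hR₀, hrec⟩ := recip_IS_ge
  obtain ⟨X₁, hbas⟩ := RJ_basic a ((W : ℝ) + R₀) ha
  obtain ⟨X₂, hpow⟩ := pow_compare a 0 2 (1 / 10) (by norm_num)
  obtain ⟨X₃, hone⟩ := one_s W hW L hL hL1
  refine ⟨max X₁ (max X₂ X₃), fun X hX v hv x hx => ?_⟩
  have hX1 : X₁ ≤ X := (le_max_left _ _).trans hX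
  have hX2 : X₂ ≤ X := ((le_max_left _ _).trans (le_max_right _ _)).trans hX
  have hX3 : X₃ ≤ X := ((le_max_right _ _).trans (le_max_right _ _)).trans hX
  obtain ⟨hX27, hL3, hWL, hLR, hRa, -, -, -⟩ := hbas X hX1
  have hW0 : (0 : ℝ) ≤ W := Nat.cast_nonneg W
  have hR₀0 : (0 : ℝ) ≤ R₀ := Nat.cast_nonneg R₀
  have hWR : W ≤ RJ a X := by
    have : (W : ℝ) ≤ RJ a X := by linarith
    exact_mod_cast this
  have hRR : R₀ ≤ RJ a X := by
    have : (R₀ : ℝ) ≤ RJ a X := by linarith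
    exact_mod_cast this
  have hXr : (27 : ℝ) ≤ X := by exact_mod_cast hX27
  have hlogX : 0 < Real.log X := Real.log_pos (by linarith)
  have hφ : (0 : ℝ) < (Nat.totient W : ℝ) := by
    exact_mod_cast Nat.totient_pos.mpr (by omega)
  have hRr : (3 : ℝ) ≤ (RJ a X : ℝ) := by linarith
  have hR0 : (0 : ℝ) < (RJ a X : ℝ) := by linarith
  have h2R : 2 * (RJ a X : ℝ) ≤ (X : ℝ) ^ (1 / 10 : ℝ) := by
    have h := (hpow X hX2).2
    rw [Real.rpow_zero, mul_one] at h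
    linarith
  have hX0 : (0 : ℝ) ≤ X := Nat.cast_nonneg X
  have hterm : ∀ s ∈ IS (RJ a X),
      Real.exp (-16) / ((Nat.totient W : ℝ) * Real.log X) * (1 / (s : ℝ)) ≤
        ∑ q ∈ (QS X).filter (fun q => s * q ≡ v [MOD W]),
          om (YR (RJ a X) X) q / (s * q) * gsn L (x - Real.log (s * q)) := by
    intro s hs
    obtain ⟨⟨s1, s2⟩, sp⟩ := mem_prI.mp hs
    have hs0 : (0 : ℝ) < s := by exact_mod_cast sp.pos
    have s1' : (RJ a X : ℝ) ≤ s := by exact_mod_cast s1.le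
    have s2' : (s : ℝ) ≤ 2 * (RJ a X : ℝ) := by exact_mod_cast s2
    have hco : Nat.Coprime s W := (Nat.Prime.coprime_iff_not_dvd sp).mpr fun hd => by
      have := Nat.le_of_dvd (by omega) hd
      omega
    have hY1 : (X : ℝ) / s ≤ YR (RJ a X) X := by
      unfold YR
      exact div_le_div_of_nonneg_left hX0 hR0 s1'
    have hY2 : YR (RJ a X) X ≤ 4 * X / s := by
      unfold YR
      rw [div_le_div_iff₀ hR0 hs0]
      nlinarith
    have h := hone X hX3 (YR (RJ a X) X) x s v hx sp.one_lt.le (s2'.trans h2R) hco hv hY1 hY2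
    refine le_trans (le_of_eq ?_) h
    field_simp
  have hrec' := hrec (RJ a X) hRR
  have hA : 0 ≤ Real.exp (-16) / ((Nat.totient W : ℝ) * Real.log X) := by positivity
  unfold XV
  calc Real.exp (-16) / 8 * FR (RJ a X) X / Nat.totient W
      = Real.exp (-16) / ((Nat.totient W : ℝ) * Real.log X) *
          (1 / (8 * Real.log (RJ a X))) := by
        unfold FR
        ring
    _ ≤ Real.exp (-16) / ((Nat.totient W : ℝ) * Real.log X) *
          ∑ s ∈ IS (RJ a X), 1 / (s : ℝ) := mul_le_mul_of_nonneg_left hrec' hA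
    _ = ∑ s ∈ IS (RJ a X),
          Real.exp (-16) / ((Nat.totient W : ℝ) * Real.log X) * (1 / (s : ℝ)) := by
        rw [Finset.mul_sum]
    _ ≤ _ := Finset.sum_le_sum hterm

end Pool.Agent.Lib.MP_bae66e_nt.E2
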