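import Pool.Agent.Lib.MP_bae66e_nt.Mg.G119
import Pool.Agent.Lib.MP_bae66e_nt.Mg.G037
import Pool.Agent.Lib.MP_bae66e_nt.E3.A0a

/-!
# Row W3: from `COREJ` to short intervals (port of E3/M8 with the parameters of AC/RowJ `winj_abs`)
-/

set_option autoImplicit false

namespace Pool.Agent.Lib.MP_bae66e_nt.E2

open Finset MeasureTheory Real
open Pool.Agent.E3
open Pool.Agent.Lib.MP_bae66e_nt.AP3 (prI mem_prI)

open Filter in
/-- The parameters. PROOF. `L = log X`, `R = ⌊L^a⌋`: `L^(a-1/2) ≤ R ≤ L^a ≤ L^(a+1/2)`, `YR = X/R ≥ X^0.99`, `H = 2R²`, `Δ = H/(K X)`: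
`Δ YR = H/(K R) = 2R/K ≥ 1`, `Δ X = H/K ≥ L`, `Δ ≤ X^(-1/2)`, `Δ → 0`. -/
theorem par_E (a K δ : ℝ) (ha : 3 ≤ a) (hK : 1 ≤ K) (hδ : 0 < δ) : ∃ X₀ : ℕ, ∀ X : ℕ, X₀ ≤ X →
    PH (RJ a X) X ∧ 1 ≤ HJ a X ∧ 100 * HJ a X ≤ X ∧
      (Real.log X) ^ (a - 1 / 2) ≤ RJ a X ∧ (RJ a X : ℝ) ≤ (Real.log X) ^ (a - 1 / 2 + 1) ∧
      YR (RJ a X) X ≤ X ∧ 0 < (HJ a X : ℝ) / (K * X) ∧ (HJ a X : ℝ) / (K * X) ≤ (X : ℝ) ^ (-(1 / 2) : ℝ) ∧
      1 ≤ (HJ a X : ℝ) / (K * X) * YR (RJ a X) X ∧ Real.log X ≤ (HJ a X : ℝ) / (K * X) * X ∧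
      (HJ a X : ℝ) / (K * X) ≤ δ := by
  obtain ⟨X₁, hbas⟩ := RJ_basic a (max (2 * K) 4) ha
  obtain ⟨X₂, hpow⟩ := pow_compare a 0 1 (1 / 100) (by norm_num)
  obtain ⟨X₃, hpow2⟩ := pow_compare (2 * a) 0 200 (1 / 2) (by norm_num)
  refine ⟨max (max X₁ X₂) (max X₃ ⌈(1 / δ) ^ 2⌉₊), fun X hX => ?_⟩
  have hX1 : X₁ ≤ X := (le_max_left _ _).trans ((le_max_left _ _).trans hX)
  have hX2 : X₂ ≤ X := (le_max_right _ _).trans ((le_max_left _ _).trans hX)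
  have hX3 : X₃ ≤ X := (le_max_left _ _).trans ((le_max_right _ _).trans hX)
  have hX4 : ⌈(1 / δ) ^ 2⌉₊ ≤ X := (le_max_right _ _).trans ((le_max_right _ _).trans hX)
  obtain ⟨g1, g2, g3, g4, g5, g6, g7, g8⟩ := hbas X hX1
  have h1 := (hpow X hX2).2
  have h2 := (hpow2 X hX3).2
  rw [Real.rpow_zero, mul_one] at h1 h2
  rw [one_mul] at h1
  have hK2 : 2 * K ≤ Real.log X := (le_max_left _ _).trans g3
  have hXr : (27 : ℝ) ≤ X := by exact_mod_cast g1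
  have hX0 : (0 : ℝ) < X := by linarith
  have hL0 : 0 < Real.log X := by linarith
  have hL1 : 1 ≤ Real.log X := by linarith
  have hK0 : 0 < K := by linarith
  set R : ℕ := RJ a X with hR
  set L : ℝ := Real.log X with hL
  have hR3 : (3 : ℝ) ≤ R := by linarith
  have hR0 : (0 : ℝ) < R := by linarith
  have hR2 : 2 ≤ R := by
    have : (2 : ℝ) ≤ R := by linarith
    exact_mod_cast this
  have hHr : (HJ a X : ℝ) = 2 * (R : ℝ) ^ 2 := by
    unfold HJ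
    rw [← hR]
    push_cast
    ring
  have hLa : L ^ (2 * a) = (L ^ a) ^ 2 := by
    rw [two_mul, Real.rpow_add hL0, sq]
  have hH : 100 * (HJ a X : ℝ) ≤ (X : ℝ) ^ (1 / 2 : ℝ) := by
    rw [hHr]
    rw [hLa] at h2
    nlinarith
  have hsq : (X : ℝ) ^ (1 / 2 : ℝ) * (X : ℝ) ^ (1 / 2 : ℝ) = X := by
    rw [← Real.rpow_add hX0]
    norm_num
  have hs1 : 1 ≤ (X : ℝ) ^ (1 / 2 : ℝ) := Real.one_le_rpow (by linarith) (by norm_num)
  have hneg : (X : ℝ) ^ (-(1 / 2) : ℝ) = (X : ℝ) ^ (1 / 2 : ℝ) / X := by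
    rw [eq_div_iff hX0.ne']
    nth_rewrite 2 [← Real.rpow_one (X : ℝ)]
    rw [← Real.rpow_add hX0]
    norm_num
  have hYdef : YR R X = (X : ℝ) / R := rfl
  have hHpos : (0 : ℝ) < HJ a X := by
    rw [hHr]
    positivity
  have hDup : (HJ a X : ℝ) / (K * X) ≤ (X : ℝ) ^ (-(1 / 2) : ℝ) := by
    rw [hneg, div_le_div_iff₀ (by positivity) hX0]
    have h3 : (HJ a X : ℝ) ≤ (X : ℝ) ^ (1 / 2 : ℝ) * K := by
      nlinarith
    nlinarith
  refine ⟨⟨by omega, hR2, ?_⟩, ?_, ?_, ?_, ?_, ?_, by positivity, hDup, ?_, ?_, ?_⟩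
  · rw [hYdef, le_div_iff₀ hR0]
    calc (X : ℝ) ^ (0.99 : ℝ) * R ≤ (X : ℝ) ^ (0.99 : ℝ) * (X : ℝ) ^ (1 / 100 : ℝ) :=
          mul_le_mul_of_nonneg_left (g5.trans h1) (by positivity)
      _ = X := by
          rw [← Real.rpow_add hX0]
          norm_num
  · have : (0 : ℝ) < (HJ a X : ℝ) := hHpos
    exact_mod_cast this
  · have h3 : ((100 * HJ a X : ℕ) : ℝ) ≤ X := by
      push_cast
      nlinarith
    exact_mod_cast h3
  · have h3 : L ^ (a - 1 / 2) * L ^ (1 / 2 : ℝ) = L ^ a := by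
      rw [← Real.rpow_add hL0]
      congr 1
      ring
    have h4 : (2 : ℝ) ≤ L ^ (1 / 2 : ℝ) := by
      rw [← Real.sqrt_eq_rpow]
      refine Real.le_sqrt_of_sq_le ?_
      have : 4 ≤ L := (le_max_right _ _).trans g3
      linarith
    have h5 : 0 < L ^ (a - 1 / 2) := Real.rpow_pos_of_pos hL0 _
    nlinarith
  · refine g5.trans (Real.rpow_le_rpow_of_exponent_le hL1 (by linarith))
  · rw [hYdef, div_le_iff₀ hR0]
    nlinarith
  · rw [hYdef, hHr]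
    have h3 : 2 * (R : ℝ) ^ 2 / (K * X) * (X / R) = 2 * R / K := by
      field_simp
    rw [h3, le_div_iff₀ hK0]
    linarith
  · have h3 : (HJ a X : ℝ) / (K * X) * X = HJ a X / K := by
      field_simp
    rw [h3, le_div_iff₀ hK0, hHr]
    nlinarith
  · refine hDup.trans ?_
    have h4 : (1 / δ) ^ 2 ≤ (X : ℝ) := (Nat.le_ceil _).trans (by exact_mod_cast hX4)
    rw [Real.rpow_neg hX0.le, ← Real.sqrt_eq_rpow]
    have h6 : 1 / δ ≤ Real.sqrt X := Real.le_sqrt_of_sq_le h4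
    have h7 := inv_anti₀ (by positivity) h6
    rwa [one_div, inv_inv] at h7

/-- PROOF. As `winb2_of` (E3/M8) with `COREJ (a - 1/2)` (`χ₁ = χ₃ = χ`, `R = RJ a X`, `Y = YR`, `Δ = H/(K X)`), `char_window_e`, `PAPE`, `wine_one`,
`par_E`; the constant is `c₁/50`. -/
theorem wine_of (c₁ : ℝ) (hc₁ : 0 < c₁) (hP : PAPE c₁) (a : ℝ) (ha : 3 ≤ a) (hC : COREJ (a - 1 / 2)) :
    WINE (c₁ / 50) a := by
  obtain ⟨C, hC1, hwin⟩ := wine_one
  obtain ⟨C', hC'1, hchar⟩ := char_window_e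
  intro W hW δ hδ
  have hφ : (0 : ℝ) < (Nat.totient W : ℝ) := by exact_mod_cast Nat.totient_pos.2 hW
  -- the choice of `K`
  set A : ℝ := 130 * C * (Nat.totient W / c₁) with hA
  have hA0 : 0 < A := by positivity
  set K : ℝ := max 1 (1152 * A / δ) with hKdef
  have hK1 : 1 ≤ K := le_max_left _ _
  have hKA : A * Real.exp (-(K ^ 2 / 576)) ≤ δ / 2 := by
    have h1 : 1152 * A / δ ≤ K := le_max_right _ _
    have h2 : Real.exp (-(K ^ 2 / 576)) ≤ 576 / K := by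
      have h3 : K ^ 2 / 576 ≤ Real.exp (K ^ 2 / 576) := by
        have := Real.add_one_le_exp (K ^ 2 / 576)
        linarith
      rw [Real.exp_neg]
      calc (Real.exp (K ^ 2 / 576))⁻¹ ≤ (K ^ 2 / 576)⁻¹ := inv_anti₀ (by positivity) h3
        _ = 576 / K / K := by field_simp
        _ ≤ 576 / K := div_le_self (by positivity) hK1
    calc A * Real.exp (-(K ^ 2 / 576)) ≤ A * (576 / K) := mul_le_mul_of_nonneg_left h2 hA0.le
      _ ≤ δ / 2 := by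
          rw [div_le_iff₀ hδ] at h1
          rw [← mul_div_assoc, div_le_iff₀ (by positivity)]
          linarith
  -- the choice of `η`
  set s : ℝ := δ * c₁ / (64 * Nat.totient W) with hs
  have hs0 : 0 < s := by positivity
  set η : ℝ := s ^ 2 / 2 with hη
  have hη0 : 0 < η := by positivity
  have hsη : Real.sqrt (2 * η) = s := by
    rw [hη, show 2 * (s ^ 2 / 2) = s ^ 2 by ring, Real.sqrt_sq hs0.le]
  obtain ⟨T₀, hT₀, X₁, hcore⟩ := hC W hW (η / 2) (by positivity)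
  set T : ℝ := max T₀ (2 * C' / η) with hT
  have hT1 : T₀ ≤ T := le_max_left _ _
  have hT2 : 2 * C' / η ≤ T := le_max_right _ _
  have hT3 : 1 ≤ T := hT₀.trans hT1
  have hl0 : 0 < 1 / T ^ 2 := by positivity
  have hl1 : 1 / T ^ 2 ≤ 1 := by
    rw [div_le_one (by positivity)]
    exact one_le_pow₀ hT3
  obtain ⟨X₂, hpap⟩ := hP a ha W hW (1 / T ^ 2) hl0 hl1
  obtain ⟨X₃, hpar⟩ := par_E a K (1 / T ^ 2) ha hK1 hl0
  refine ⟨max (max X₁ X₂) X₃, fun X hX v hv => ?_⟩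
  have hX1 : X₁ ≤ X := (le_max_left _ _).trans ((le_max_left _ _).trans hX)
  have hX2 : X₂ ≤ X := (le_max_right _ _).trans ((le_max_left _ _).trans hX)
  have hX3 : X₃ ≤ X := (le_max_right _ _).trans hX
  obtain ⟨hPG, hHA1, hHA2, g4, g5, g6, g7, g8, g9, g10, hd1⟩ := hpar X hX3
  have hFG0 : 0 < FR (RJ a X) X := hPG.pos
  have hχ : ∀ χ : DirichletCharacter ℂ W,
      ∫ x : ℝ, ‖XX χ (RJ a X) X (HJ a X / (K * X)) x -
        XX χ (RJ a X) X (1 / T ^ 2) x‖ ^ 2 ≤ η * (FR (RJ a X) X) ^ 2 := by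
    intro χ
    have h1 := hcore X hX1 χ χ (RJ a X) g4 g5
      (YR (RJ a X) X) (HJ a X / (K * X)) hPG.Ylow g6 g7 g8 g9 g10
    have h2 := hchar (RJ a X) X hPG W χ T₀ T (HJ a X / (K * X)) (η / 2) hT3 hT1 g7 hd1 h1
    refine h2.trans (mul_le_mul_of_nonneg_right ?_ (by positivity))
    have h3 : C' / T ≤ η / 2 := by
      rw [div_le_iff₀ hη0] at hT2
      rw [div_le_iff₀ (by linarith)]
      linarith
    linarith
  have hlow : ∀ x : ℝ, |x - Real.log X| ≤ 1 → c₁ * FR (RJ a X) X / Nat.totient W ≤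
      XV W v (RJ a X) X (1 / T ^ 2) x := fun x hx => hpap X hX2 v hv x hx
  have key := hwin (RJ a X) X (HJ a X) W v K (1 / T ^ 2) η c₁ hPG hHA1 hHA2 hW hv hK1 hl0
    hη0.le hc₁ hχ hlow
  have hGE : c₁ / 50 * GE a X / Nat.totient W = c₁ / 50 * HJ a X * FR (RJ a X) X / Nat.totient W := by
    unfold GE
    ring
  rw [hGE]
  unfold fR
  refine le_trans key ?_
  rw [hsη]
  have h5 : (Nat.totient W / c₁) * (32 * s + 130 * Real.exp (-(K ^ 2 / 576)) * C) =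
      32 * s * (Nat.totient W / c₁) + A * Real.exp (-(K ^ 2 / 576)) := by
    rw [hA]
    ring
  have h6 : 32 * s * (Nat.totient W / c₁) = δ / 2 := by
    rw [hs]
    field_simp
    ring
  rw [mul_assoc, h5, h6, mul_comm]
  refine mul_le_mul_of_nonneg_right ?_ (Nat.cast_nonneg _)
  linarith

end Pool.Agent.Lib.MP_bae66e_nt.E2
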