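import Pool.Agent.Lib.MP_bae66e_nt.Mg.G029
import Pool.Agent.Lib.MP_bae66e_nt.E2.W3
import Pool.Agent.Lib.MP_bae66e_nt.E2.P
import Pool.Agent.Lib.MP_bae66e_nt.Mg.G124
import Pool.Agent.Lib.MP_bae66e_nt.E2.J
import Pool.Agent.Lib.MP_bae66e_nt.E2.I
import Pool.Agent.Lib.MP_bae66e_nt.E2.K1
import Pool.Agent.Lib.MP_bae66e_nt.E2.K2

/-!
# Row Fin: the theorem (port of AC/RowK `many_abs`)
-/

set_option autoImplicit false

namespace Pool.Agent.Lib.MP_bae66e_nt.E2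

open Finset MeasureTheory Real
open Pool.Agent.E3
open Pool.Agent.Lib.MP_bae66e_nt.AP3 (prI mem_prI)

/-- There are `c > 0` and `a₀` such that for all `a ≥ a₀` and almost all even `m`: for `z = 2 (log m)^a`, at least `c π(z)` of the primes `r ≤ z` are such that
`m - p` is `r` times a prime for at least `c π(z²)/(z log m)` primes `p ≤ z²`. -/
theorem almost_all_e2 : ∃ c a₀ : ℝ, 0 < c ∧ ∀ a : ℝ, a₀ ≤ a → ∀ δ : ℝ, 0 < δ →
    ∃ N₀ : ℕ, ∀ N : ℕ, N₀ ≤ N →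
      (#{m ∈ Icc 1 N | Even m ∧ ¬ (c * (Nat.primeCounting ⌊2 * (Real.log (((m : ℕ)) : ℝ)) ^ a⌋₊ : ℝ) ≤
        ((goodR c m (2 * (Real.log (m : ℝ)) ^ a)).card : ℝ))} : ℝ) ≤ δ * N := by
  obtain ⟨θ, hθ, -, hT⟩ := t3q
  obtain ⟨a₀, ha₀, hcore⟩ := corej_of θ hθ hT nlv
  obtain ⟨c₁, hc₁, hP⟩ := pape
  obtain ⟨C, a₁, hC, ha₁, hsec⟩ := sece_of
  obtain ⟨c, τ, hc, hτ, hmany⟩ := many_e (c₁ / 50) C (by positivity) hC
  refine ⟨min (c / 80) (τ / 320), max (a₀ + 1 / 2) (max a₁ 4), lt_min (by positivity) (by positivity),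
    fun a ha δ hδ => ?_⟩
  have h1 : a₀ + 1 / 2 ≤ a := (le_max_left _ _).trans ha
  have h2 : a₁ ≤ a := ((le_max_left _ _).trans (le_max_right _ _)).trans ha
  have h3 : 3 ≤ a := ha₁.trans h2
  have hW : WINE (c₁ / 50) a := wine_of c₁ hc₁ hP a h3 (hcore _ (by linarith))
  have hF : FIRE (c₁ / 50) a := fire_of (c₁ / 50) (by positivity) a h3 hW (vare_of slp a h3)
  obtain ⟨X1, hX1⟩ := hmany a h3 hF (hsec a h2) (δ / 4) (by positivity)
  obtain ⟨X2, hX2⟩ := GQE_good a τ h3 hτ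
  have h4 : ∀ N : ℕ, δ * N = 4 * (δ / 4) * N := fun N => by ring
  simp only [h4]
  refine @dyadic_bad _ _ (δ / 4) (by positivity) (max (max X1 X2) 3) ?_
  intro X hX
  refine le_trans ?_ (hX1 X ((le_max_left _ _).trans ((le_max_left _ _).trans hX)))
  rw [Nat.cast_le]
  apply Finset.card_le_card
  intro m hm
  obtain ⟨hm1, hm2, hm3⟩ := Finset.mem_filter.1 hm
  rw [Finset.mem_filter]
  refine ⟨hm1, hm2, ?_⟩
  by_contra hcon
  push Not at hcon
  apply hm3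
  obtain ⟨hsub, hz⟩ := hX2 X m ((le_max_right _ _).trans ((le_max_left _ _).trans hX)) (Finset.mem_Icc.1 hm1).1
    (Finset.mem_Icc.1 hm1).2
  have hm3' : 3 ≤ m := ((le_max_right _ _).trans hX).trans (Finset.mem_Icc.1 hm1).1
  have hmr : (3 : ℝ) ≤ m := by exact_mod_cast hm3'
  have hz0 : 0 < 2 * (Real.log (m : ℝ)) ^ a := by
    have := Real.rpow_pos_of_pos (Real.log_pos (by linarith : (1 : ℝ) < m)) a
    positivity
  calc min (c / 80) (τ / 320) * (Nat.primeCounting ⌊2 * (Real.log m) ^ a⌋₊ : ℝ)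
      ≤ (c / 80) * (80 * UE a X) :=
        mul_le_mul (min_le_left _ _) hz (Nat.cast_nonneg _) (by positivity)
    _ = c * UE a X := by
        field_simp
    _ ≤ ((GQE a τ X m).card : ℝ) := hcon
    _ ≤ ((goodR (min (c / 80) (τ / 320)) m (2 * (Real.log m) ^ a)).card : ℝ) := by
        exact_mod_cast Finset.card_le_card (hsub.trans (goodR_anti_e (min_le_right _ _) (by omega) _ hz0))

end Pool.Agent.Lib.MP_bae66e_nt.E2
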