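import Pool.Agent.Lib.MP_bae66e_nt.Mg.G122
import Pool.Agent.Lib.MP_bae66e_nt.Mg.G030

/-!
# Row H2b: the variance of the majorant for one `s` (port of `var_class` of AC/RowH)
-/

set_option autoImplicit false

namespace Pool.Agent.Lib.MP_bae66e_nt.E2

open Finset MeasureTheory Real
open Pool.Agent.E3
open Pool.Agent.Lib.MP_bae66e_nt.AP3 (prI mem_prI)

open Pool.Agent.Lib.MP_bae66e_nt.LL (fP)
open Pool.Agent.Lib.MP_bae66e_nt
open Pool.Agent.Lib.MP_bae66e_nt.AC (SD sg Ek VV Sg FC Uc exists_SD rho_D mertens_W)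

/-- the final numerical estimate -/
private lemma H2b_final {X l H lh tK G K CE g W T w η R s : ℝ} (hX : 1 ≤ X) (hl : 1 ≤ l) (hR : 1 ≤ R) (hs1 : R ≤ s)
    (hs2 : s ≤ 2 * R) (hH : H = 2 * R ^ 2)
    (htK : 0 ≤ tK) (hK : 0 ≤ K) (hCE : 0 ≤ CE) (hg : 0 < g) (hw : 0 < w) (hW : 0 ≤ W)
    (hG : g * l / 32 ≤ G) (hA : tK * lh ^ 2 * l ≤ 2 * R) (hA2 : 6144 * K ≤ η * (g ^ 2 * l))
    (hB : 6144 * K * CE ≤ η * (g ^ 2 * w)) (hC : 24 * W * R ^ 3 * lh ^ 2 * l ^ 2 * T ^ 4 ≤ η * X) :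
    (X + 1) / s * (1 / G ^ 2 * (K * tK * (H * lh ^ 2) + K * (CE * H ^ 2 / s) / w)) +
      4 * (W * s) * (H * lh) ^ 2 * T ^ 4 ≤ η * X * (H / (R * l)) ^ 2 := by
  have hl0 : 0 < l := by linarith
  have hR0 : 0 < R := by linarith
  have hs0 : 0 < s := by linarith
  have hH0 : 0 < H := by rw [hH]; positivity
  have hgl : 0 < g * l := mul_pos hg hl0
  have hGi : 1 / G ^ 2 ≤ 1024 / (g ^ 2 * l ^ 2) := by
    rw [div_le_div_iff₀ (by nlinarith [sq_nonneg G, hG, hgl]) (by positivity)]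
    have h1 : (g * l / 32) ^ 2 ≤ G ^ 2 := pow_le_pow_left₀ (by positivity) hG 2
    nlinarith
  have hGi0 : 0 ≤ 1 / G ^ 2 := by positivity
  have hXs : (X + 1) / s ≤ 2 * X / R := by
    rw [div_le_div_iff₀ hs0 hR0]
    nlinarith
  have hCs : K * (CE * H ^ 2 / s) / w ≤ K * (CE * H ^ 2 / R) / w := by
    refine div_le_div_of_nonneg_right ?_ hw.le
    refine mul_le_mul_of_nonneg_left ?_ hK
    exact div_le_div_of_nonneg_left (by positivity) hR0 hs1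
  have hS0 : 0 ≤ K * tK * (H * lh ^ 2) + K * (CE * H ^ 2 / s) / w := by positivity
  have h1 : (X + 1) / s * (1 / G ^ 2 * (K * tK * (H * lh ^ 2) + K * (CE * H ^ 2 / s) / w)) ≤
      (2 * X / R) * (1024 / (g ^ 2 * l ^ 2) * (K * tK * (H * lh ^ 2) + K * (CE * H ^ 2 / R) / w)) := by
    refine mul_le_mul hXs ?_ (mul_nonneg hGi0 hS0) (by positivity)
    exact mul_le_mul hGi (by linarith) hS0 (by positivity)
  have h2 : (2 * X / R) * (1024 / (g ^ 2 * l ^ 2) * (K * tK * (H * lh ^ 2))) ≤ η / 3 * X * (H / (R * l)) ^ 2 := by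
    have e1 : (2 * X / R) * (1024 / (g ^ 2 * l ^ 2) * (K * tK * (H * lh ^ 2))) =
        (2048 * X * K * H / (R * g ^ 2 * l ^ 3)) * (tK * lh ^ 2 * l) := by
      field_simp; ring
    have e2 : η / 3 * X * (H / (R * l)) ^ 2 = (X * H ^ 2 / (3 * R ^ 2 * l ^ 3 * g ^ 2)) * (η * (g ^ 2 * l)) := by
      field_simp
    rw [e1, e2]
    calc (2048 * X * K * H / (R * g ^ 2 * l ^ 3)) * (tK * lh ^ 2 * l)
        ≤ (2048 * X * K * H / (R * g ^ 2 * l ^ 3)) * (2 * R) := mul_le_mul_of_nonneg_left hA (by positivity)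
      _ = (X * H ^ 2 / (3 * R ^ 2 * l ^ 3 * g ^ 2)) * (6144 * K) := by
          rw [hH]; field_simp; ring
      _ ≤ _ := mul_le_mul_of_nonneg_left hA2 (by positivity)
  have h3 : (2 * X / R) * (1024 / (g ^ 2 * l ^ 2) * (K * (CE * H ^ 2 / R) / w)) ≤ η / 3 * X * (H / (R * l)) ^ 2 := by
    have e1 : (2 * X / R) * (1024 / (g ^ 2 * l ^ 2) * (K * (CE * H ^ 2 / R) / w)) =
        (X * H ^ 2 / (3 * R ^ 2 * l ^ 2 * g ^ 2 * w)) * (6144 * K * CE) := by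
      field_simp; ring
    have e2 : η / 3 * X * (H / (R * l)) ^ 2 = (X * H ^ 2 / (3 * R ^ 2 * l ^ 2 * g ^ 2 * w)) * (η * (g ^ 2 * w)) := by
      field_simp
    rw [e1, e2]
    exact mul_le_mul_of_nonneg_left hB (by positivity)
  have h4 : 4 * (W * s) * (H * lh) ^ 2 * T ^ 4 ≤ η / 3 * X * (H / (R * l)) ^ 2 := by
    have e0 : 4 * (W * s) * (H * lh) ^ 2 * T ^ 4 ≤ 4 * (W * (2 * R)) * (H * lh) ^ 2 * T ^ 4 := by
      have hT : 0 ≤ T ^ 4 := by positivity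
      refine mul_le_mul_of_nonneg_right ?_ hT
      refine mul_le_mul_of_nonneg_right ?_ (sq_nonneg _)
      exact mul_le_mul_of_nonneg_left (mul_le_mul_of_nonneg_left hs2 hW) (by norm_num)
    refine e0.trans ?_
    have e1 : 4 * (W * (2 * R)) * (H * lh) ^ 2 * T ^ 4 =
        (H ^ 2 / (3 * R ^ 2 * l ^ 2)) * (24 * W * R ^ 3 * lh ^ 2 * l ^ 2 * T ^ 4) := by
      field_simp; ring
    have e2 : η / 3 * X * (H / (R * l)) ^ 2 = (H ^ 2 / (3 * R ^ 2 * l ^ 2)) * (η * X) := by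
      field_simp
    rw [e1, e2]
    exact mul_le_mul_of_nonneg_left hC (by positivity)
  have h5 : (2 * X / R) * (1024 / (g ^ 2 * l ^ 2) * (K * tK * (H * lh ^ 2) + K * (CE * H ^ 2 / R) / w)) =
      (2 * X / R) * (1024 / (g ^ 2 * l ^ 2) * (K * tK * (H * lh ^ 2))) +
        (2 * X / R) * (1024 / (g ^ 2 * l ^ 2) * (K * (CE * H ^ 2 / R) / w)) := by ring
  rw [h5] at h1
  linarith

open Filter in
private lemma H2b_ev_w (c η : ℝ) (hη : 0 < η) : ∃ w₁ : ℕ, ∀ w : ℕ, w₁ ≤ w → c * (Real.log w) ^ 12 ≤ η * w := by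
  have h1 : (fun x : ℝ => Real.log x ^ (12 : ℝ)) =o[atTop] fun x => x ^ (1 : ℝ) :=
    isLittleO_log_rpow_rpow_atTop 12 one_pos
  have h2 := (h1.bound (show 0 < η / (|c| + 1) by positivity)).and (eventually_ge_atTop (1 : ℝ))
  have h3 := tendsto_natCast_atTop_atTop.eventually h2
  obtain ⟨w₁, hw₁⟩ := eventually_atTop.1 h3
  refine ⟨w₁, fun w hw => ?_⟩
  obtain ⟨h4, h5⟩ := hw₁ w hw
  have hl : 0 ≤ Real.log w := Real.log_natCast_nonneg w
  have e1 : Real.log w ^ (12 : ℝ) = Real.log w ^ 12 := by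
    rw [← Real.rpow_natCast]; norm_num
  rw [e1, Real.rpow_one, Real.norm_of_nonneg (by positivity), Real.norm_of_nonneg (by positivity)] at h4
  have h6 : (|c| + 1) * Real.log w ^ 12 ≤ η * w := by
    calc (|c| + 1) * Real.log w ^ 12 ≤ (|c| + 1) * (η / (|c| + 1) * w) :=
          mul_le_mul_of_nonneg_left h4 (by positivity)
      _ = η * w := by field_simp
  have h7 : c * Real.log w ^ 12 ≤ (|c| + 1) * Real.log w ^ 12 :=
    mul_le_mul_of_nonneg_right (by linarith [le_abs_self c]) (by positivity)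
  linarith

open Filter in
private lemma H2b_ev_M (a : ℝ) (ha : 0 < a) (N₀ : ℕ) (A B : ℝ) : ∃ M₀ : ℕ, ∀ M : ℕ, M₀ ≤ M →
    N₀ ≤ ⌊(Real.log M) ^ a⌋₊ ∧ A ≤ Real.log M ∧ B ≤ (M : ℝ) ^ (1 / 16 : ℝ) ∧
      (Real.log M) ^ a ≤ ((M : ℝ) ^ (1 / 16 : ℝ)) ^ 2 ∧ 1 ≤ M := by
  have hc := tendsto_natCast_atTop_atTop (R := ℝ)
  have hl : Tendsto (fun M : ℕ => Real.log M) atTop atTop := Real.tendsto_log_atTop.comp hc
  have h1 : ∀ᶠ M : ℕ in atTop, N₀ ≤ ⌊(Real.log M) ^ a⌋₊ :=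
    (tendsto_nat_floor_atTop.comp ((tendsto_rpow_atTop ha).comp hl)).eventually_ge_atTop N₀
  have h2 : ∀ᶠ M : ℕ in atTop, A ≤ Real.log M := hl.eventually_ge_atTop A
  have h3 : ∀ᶠ M : ℕ in atTop, B ≤ (M : ℝ) ^ (1 / 16 : ℝ) :=
    ((tendsto_rpow_atTop (by norm_num : (0 : ℝ) < 1 / 16)).comp hc).eventually_ge_atTop B
  have h4 : ∀ᶠ x : ℝ in atTop, ‖Real.log x ^ a‖ ≤ 1 * ‖x ^ (1 / 8 : ℝ)‖ :=
    (isLittleO_log_rpow_rpow_atTop a (by norm_num : (0 : ℝ) < 1 / 8)).bound one_pos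
  have h5 := hc.eventually h4
  obtain ⟨M₀, hM₀⟩ := eventually_atTop.1 (((h1.and h2).and (h3.and h5)).and (eventually_ge_atTop 1))
  refine ⟨M₀, fun M hM => ?_⟩
  obtain ⟨⟨⟨g1, g2⟩, g3, g4⟩, g5⟩ := hM₀ M hM
  refine ⟨g1, g2, g3, ?_, g5⟩
  have hM0 : (0 : ℝ) ≤ M := Nat.cast_nonneg M
  have h6 : ((M : ℝ) ^ (1 / 16 : ℝ)) ^ 2 = (M : ℝ) ^ (1 / 8 : ℝ) := by
    rw [← Real.rpow_natCast, ← Real.rpow_mul hM0]
    norm_num
  rw [h6]
  rw [one_mul, Real.norm_of_nonneg (Real.rpow_nonneg hM0 _)] at g4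
  exact (le_abs_self _).trans g4

/-- PROOF. As `var_class` (AC/RowH; copy its private lemmas `H_ev_w`, `H_ev_M`, `H_final`): `W = primorial w`, `T = ⌊M^(1/16)⌋₊`, `D = W ∏_{p ∈ prI R (2R)} p`, `exists_SD`, `rho_D`: `G ≥ (φ(W)/W) (log M)/32`; `H = HJ a M = 2R²`; `Pm m = ∑_t FE H W s m t · sg (1 * m - t)`
(`majorant_e`), `B m = (∑_t FE)/G` (`A_bound_e`: `B m ≤ 400 H #VV/(s φ(W)) · 32 (W/φ(W))/log M = 12800 Sg H/(s log M)`, and `s > R`), `finite_e`, `mertens_W`: with `V = H/(R log M)` the three terms are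
`(M/s)(1024 (W/φ)²/(log M)²) K (log M)^K H (log H)² ≤ (η/4) M V²` (as `s ≥ R ≥ (log M)^a/2`, `a ≥ K + 3`), `1024 (W/φ)² K CE M H²/(s² w (log M)²) ≤ (η/4) M V²` (`w` large), `4 W s (H log H)² M^(1/4) ≤ (η/4) M V²`. -/
theorem var_class_e : ∃ C a₁ : ℝ, 1 ≤ C ∧ 3 ≤ a₁ ∧ ∀ a : ℝ, a₁ ≤ a → ∀ η : ℝ, 0 < η → ∃ w₀ : ℕ, ∀ w : ℕ, w₀ ≤ w →
    (∀ m : ℕ, Even m → 1 ≤ #(VV (primorial w) m)) →
    ∃ M₀ : ℕ, ∀ M : ℕ, M₀ ≤ M → ∀ s ∈ IS (RJ a M),
    ∃ B Pm : ℕ → ℝ,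
      (∀ m ∈ Icc M (2 * M), SE a M s m ≤ Pm m) ∧
      (∀ m ∈ Icc M (2 * M), Even m → 0 ≤ B m ∧ B m ≤ C * Sg (primorial w) m * VE a M) ∧
      ∑ m ∈ Icc M (2 * M) with Even m, (Pm m - B m) ^ 2 ≤ η * M * (VE a M) ^ 2 := by
  obtain ⟨K, CE, hK, hCE, hfin⟩ := finite_e
  obtain ⟨Km, hKm, hmert⟩ := mertens_W
  obtain ⟨R₀, hR₀⟩ := rho_D
  refine ⟨12800, K + 3, by norm_num, by linarith, fun a ha η hη => ?_⟩
  have ha0 : 0 < a := by linarith
  obtain ⟨w₁, hw₁⟩ := H2b_ev_w (6144 * K * CE * Km ^ 2) η hη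
  refine ⟨max 2 w₁, fun w hw hVV => ?_⟩
  have hw2 : 2 ≤ w := (le_max_left _ _).trans hw
  have hw1' := hw₁ w ((le_max_right _ _).trans hw)
  have hwR : (0 : ℝ) < w := by exact_mod_cast (show 0 < w by omega)
  obtain ⟨H₀, hH₀⟩ := A_bound_e w hw2
  have hmw := hmert w hw2
  have hW : 1 ≤ primorial w := primorial_pos w
  set W := primorial w with hWdef
  have hW0 : (0 : ℝ) < W := by exact_mod_cast hW
  have hφ : (0 : ℝ) < Nat.totient W := by exact_mod_cast Nat.totient_pos.2 hW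
  obtain ⟨g, hgdef⟩ : ∃ g : ℝ, g = (Nat.totient W : ℝ) / W := ⟨_, rfl⟩
  have hg : 0 < g := by rw [hgdef]; positivity
  have hl6 : 0 ≤ Real.log w ^ 6 := pow_nonneg (Real.log_natCast_nonneg w) 6
  have hg1 : 1 ≤ g * (Km * Real.log w ^ 6) := by
    have h1 : g * ((W : ℝ) / Nat.totient W) = 1 := by
      rw [hgdef]; field_simp
    rw [← h1]
    exact mul_le_mul_of_nonneg_left hmw hg.le
  have hB : 6144 * K * CE ≤ η * (g ^ 2 * w) := by
    have h1 : 1 ≤ (g * (Km * Real.log w ^ 6)) ^ 2 := one_le_pow₀ hg1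
    have h2 : 0 ≤ 6144 * K * CE := by positivity
    calc 6144 * K * CE ≤ 6144 * K * CE * (g * (Km * Real.log w ^ 6)) ^ 2 := le_mul_of_one_le_right h2 h1
      _ = g ^ 2 * (6144 * K * CE * Km ^ 2 * Real.log w ^ 12) := by ring
      _ ≤ g ^ 2 * (η * w) := mul_le_mul_of_nonneg_left hw1' (by positivity)
      _ = η * (g ^ 2 * w) := by ring
  obtain ⟨M₀, hM₀⟩ := H2b_ev_M a ha0 (R₀ + w + H₀ + 3) (max 1 (6144 * K / (η * g ^ 2)))
    (max 4 (max w (24 * W / η)))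
  refine ⟨M₀, fun M hM s hs => ?_⟩
  obtain ⟨hR1, hl, hy, hly, hM1⟩ := hM₀ M hM
  obtain ⟨R, hR⟩ : ∃ R : ℕ, R = RJ a M := ⟨_, rfl⟩
  obtain ⟨H, hHdef⟩ : ∃ H : ℕ, H = HJ a M := ⟨_, rfl⟩
  have hH : H = 2 * R ^ 2 := by rw [hHdef, hR]; rfl
  have hR' : R = ⌊(Real.log M) ^ a⌋₊ := hR
  unfold SE VE
  rw [← hHdef, ← hR]
  rw [← hR] at hs
  rw [← hR'] at hR1
  obtain ⟨l, hldef⟩ : ∃ l : ℝ, l = Real.log M := ⟨_, rfl⟩
  obtain ⟨y, hydef⟩ : ∃ y : ℝ, y = (M : ℝ) ^ (1 / 16 : ℝ) := ⟨_, rfl⟩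
  rw [← hldef] at hR' hl hly ⊢
  rw [← hydef] at hy hly
  have hMR : (1 : ℝ) ≤ M := by exact_mod_cast hM1
  have hl1 : 1 ≤ l := (le_max_left _ _).trans hl
  have hl0 : 0 < l := by linarith
  have hy4 : 4 ≤ y := (le_max_left _ _).trans hy
  have hy0 : 0 < y := by linarith
  have hyw : (w : ℝ) ≤ y := (le_max_left _ _).trans ((le_max_right _ _).trans hy)
  have hyW : 24 * W / η ≤ y := (le_max_right _ _).trans ((le_max_right _ _).trans hy)
  have hy16 : y ^ 16 = M := by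
    rw [hydef, ← Real.rpow_natCast, ← Real.rpow_mul (by linarith)]
    norm_num
  have hlogy : Real.log y = l / 16 := by
    rw [hydef, Real.log_rpow (by linarith), ← hldef]
    ring
  -- R and H
  have hla0 : 0 ≤ l ^ a := Real.rpow_nonneg hl0.le _
  have hRle : (R : ℝ) ≤ l ^ a := by rw [hR']; exact Nat.floor_le hla0
  have hRlt : l ^ a < R + 1 := by rw [hR']; exact Nat.lt_floor_add_one _
  have hR3 : (3 : ℝ) ≤ R := by exact_mod_cast (show 3 ≤ R by omega)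
  have hHR : (H : ℝ) = 2 * (R : ℝ) ^ 2 := by rw [hH]; push_cast; ring
  have hHR2 : R ≤ H := by rw [hH]; nlinarith [Nat.zero_le R]
  have hRy : (R : ℝ) ≤ y ^ 2 := hRle.trans hly
  have hHy : (H : ℝ) ≤ 2 * y ^ 4 := by
    have h2 : (R : ℝ) ^ 2 ≤ (y ^ 2) ^ 2 := pow_le_pow_left₀ (by positivity) hRy 2
    rw [hHR]
    calc 2 * (R : ℝ) ^ 2 ≤ 2 * (y ^ 2) ^ 2 := by linarith
      _ = 2 * y ^ 4 := by ring
  -- T
  obtain ⟨T, hTdef⟩ : ∃ T : ℕ, T = ⌊y⌋₊ := ⟨_, rfl⟩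
  have hT4 : 4 ≤ T := by rw [hTdef]; exact Nat.le_floor (by exact_mod_cast hy4)
  have hTy : (T : ℝ) ≤ y := by rw [hTdef]; exact Nat.floor_le (by linarith)
  have hTlt : y < T + 1 := by rw [hTdef]; exact Nat.lt_floor_add_one _
  have hTR : (4 : ℝ) ≤ T := by exact_mod_cast hT4
  have hy12 : 16 ≤ y ^ 12 := by
    have h1 : (4 : ℝ) ^ 12 ≤ y ^ 12 := pow_le_pow_left₀ (by norm_num) hy4 12
    norm_num at h1
    linarith
  have hyy4 : y ≤ y ^ 4 := le_self_pow₀ (by linarith) (by norm_num)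
  have hy4pos : 0 < y ^ 4 := by positivity
  -- s
  obtain ⟨⟨hs1, hs2⟩, hsp⟩ := mem_prI.1 hs
  have hsR1 : (R : ℝ) ≤ s := by exact_mod_cast hs1.le
  have hsR2 : (s : ℝ) ≤ 2 * R := by exact_mod_cast hs2
  have hsum : (H : ℝ) + s * (T + w + 1) < M := by
    have h3 : (T : ℝ) + w + 1 ≤ 3 * y := by linarith
    have h4 : (s : ℝ) * (T + w + 1) ≤ 2 * y ^ 2 * (3 * y) := by
      refine mul_le_mul (by linarith) h3 (by positivity) (by positivity)
    have h5 : 2 * y ^ 2 * (3 * y) = 6 * y ^ 3 := by ring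
    have h6 : y ^ 3 ≤ y ^ 4 := pow_le_pow_right₀ (by linarith) (by norm_num)
    rw [← hy16]
    have h1 : y ^ 16 = y ^ 4 * y ^ 12 := by ring
    have h2 : y ^ 4 * 16 ≤ y ^ 4 * y ^ 12 := mul_le_mul_of_nonneg_left hy12 hy4pos.le
    rw [h1]
    linarith
  have hsumN : H + s * (T + w + 1) < M := by exact_mod_cast hsum
  have hHM : H ≤ M := by
    have := Nat.zero_le (s * (T + w + 1))
    omega
  have hTM : T ≤ M := by
    have h1 : 1 ≤ s := hsp.one_lt.le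
    have h2 : T + w + 1 ≤ s * (T + w + 1) := Nat.le_mul_of_pos_left _ h1
    omega
  have hH2 : 2 ≤ H := by omega
  have hHpos : (1 : ℝ) ≤ H := by exact_mod_cast (show 1 ≤ H by omega)
  have hlh0 : 0 ≤ Real.log H := Real.log_natCast_nonneg H
  have hlhl : Real.log H ≤ l := by
    rw [hldef]
    exact Real.log_le_log (by linarith) (by exact_mod_cast hHM)
  have hlT0 : 0 ≤ Real.log T := Real.log_natCast_nonneg T
  have hlTl : Real.log T ≤ l := by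
    rw [hldef]
    exact Real.log_le_log (by linarith) (by exact_mod_cast hTM)
  have hwRR : w < R := by omega
  have hws : w < s := by omega
  have hs0 : 1 ≤ s := hsp.one_lt.le
  -- D
  obtain ⟨D, hDdef⟩ : ∃ D : ℕ, D = W * ∏ p ∈ prI R (2 * R), p := ⟨_, rfl⟩
  have hD1 : 1 ≤ D := by
    rw [hDdef]
    exact Nat.mul_pos hW (prod_pos fun p hp => (mem_prI.1 hp).2.pos)
  have hWD : W ∣ D := by rw [hDdef]; exact Dvd.intro _ rfl
  have hsD : s ∣ D := by rw [hDdef]; exact (dvd_prod_of_mem (fun p => p) hs).mul_left _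
  obtain ⟨G, lam, hGD, hsd⟩ := exists_SD D T hD1 (by omega)
  have hG : g * l / 32 ≤ G := by
    have h1 := hR₀ R w (by omega) hwRR
    rw [← hWdef, ← hDdef, ← hgdef] at h1
    have h2 : l / 16 ≤ Real.log ((T : ℝ) + 1) := by
      rw [← hlogy]
      exact Real.log_le_log (by linarith) hTlt.le
    calc g * l / 32 = g / 2 * (l / 16) := by ring
      _ ≤ rho D * Real.log ((T : ℝ) + 1) := mul_le_mul h1 h2 (by positivity) (rho_pos D).le
      _ ≤ G := hGD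
  have hG0 : 0 < G := lt_of_lt_of_le (by positivity) hG
  refine ⟨fun m => (∑ t ∈ Icc 1 H, FE H W s m t) / G,
    fun m => ∑ t ∈ Icc 1 H, FE H W s m t * sg (sProd D T) lam (1 * m - t), ?_, ?_, ?_⟩
  · intro m hm
    exact majorant_e hsd H w s m hsp hsD hws (lt_of_lt_of_le hsumN (mem_Icc.1 hm).1)
  · intro m hm hme
    have hn : 0 ≤ ∑ t ∈ Icc 1 H, FE H W s m t := sum_nonneg fun t _ => (FE_bounds H W s m t).1
    refine ⟨div_nonneg hn hG0.le, ?_⟩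
    have h1 := hH₀ R s m (by omega) hs (hVV m hme)
    rw [← hH] at h1
    have hSg0 : 0 ≤ Sg W m := by unfold Sg; positivity
    have h2 : (∑ t ∈ Icc 1 H, FE H W s m t) / G ≤
        (400 * (H : ℝ) / s * (#(VV W m) : ℝ) / Nat.totient W) / (g * l / 32) :=
      div_le_div₀ (hn.trans h1) h1 (by positivity) hG
    have hsr : (0 : ℝ) < s := by exact_mod_cast hs0
    have h3 : (400 * (H : ℝ) / s * (#(VV W m) : ℝ) / Nat.totient W) / (g * l / 32) =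
        12800 * Sg W m * (H / (s * l)) := by
      unfold Sg
      rw [hgdef]
      field_simp
      ring
    rw [h3] at h2
    refine h2.trans ?_
    refine mul_le_mul_of_nonneg_left ?_ (by positivity)
    exact div_le_div_of_nonneg_left (by positivity) (by positivity) (mul_le_mul_of_nonneg_right hsR1 hl0.le)
  · refine (sum_le_sum_of_subset_of_nonneg (filter_subset _ _) fun m _ _ => sq_nonneg _).trans ?_
    refine (hfin D T w G lam hsd (by omega) (by omega) (by omega) (by rw [← hWdef]; exact hWD) s M H hsp hws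
      hsD hH2 hHM hM1).trans ?_
    have hKl : (Real.log T) ^ K ≤ l ^ K := Real.rpow_le_rpow hlT0 hlTl (by linarith)
    have hKl0 : 0 ≤ (Real.log T) ^ K := Real.rpow_nonneg hlT0 _
    have hA : (Real.log T) ^ K * (Real.log H) ^ 2 * l ≤ 2 * R := by
      have h1 : (Real.log H) ^ 2 ≤ l ^ 2 := pow_le_pow_left₀ hlh0 hlhl 2
      calc (Real.log T) ^ K * (Real.log H) ^ 2 * l ≤ l ^ K * l ^ 2 * l := by
            refine mul_le_mul_of_nonneg_right (mul_le_mul hKl h1 (by positivity) (by positivity)) hl0.le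
        _ = l ^ (K + 3) := by
            rw [Real.rpow_add hl0, mul_assoc]
            congr 1
            have : (l : ℝ) ^ (3 : ℝ) = l ^ 3 := by
              rw [← Real.rpow_natCast]; norm_num
            rw [this]; ring
        _ ≤ l ^ a := Real.rpow_le_rpow_of_exponent_le hl1 ha
        _ ≤ 2 * R := by linarith
    have hA2 : 6144 * K ≤ η * (g ^ 2 * l) := by
      have h1 : 6144 * K / (η * g ^ 2) ≤ l := (le_max_right _ _).trans hl
      rw [div_le_iff₀ (by positivity)] at h1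
      linarith
    have hll : l ≤ y := by
      have h1 : l ^ (2 : ℝ) ≤ l ^ a := Real.rpow_le_rpow_of_exponent_le hl1 (by linarith)
      have h2 : l ^ (2 : ℝ) = l ^ 2 := by
        rw [← Real.rpow_natCast]; norm_num
      rw [h2] at h1
      exact (pow_le_pow_iff_left₀ hl0.le hy0.le (by norm_num)).1 (h1.trans hly)
    have hC : 24 * W * (R : ℝ) ^ 3 * (Real.log H) ^ 2 * l ^ 2 * (T : ℝ) ^ 4 ≤ η * M := by
      have h0 : (R : ℝ) ^ 3 ≤ (y ^ 2) ^ 3 := pow_le_pow_left₀ (by positivity) hRy 3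
      have h1 : (Real.log H) ^ 2 ≤ y ^ 2 := pow_le_pow_left₀ hlh0 (hlhl.trans hll) 2
      have h2 : l ^ 2 ≤ y ^ 2 := pow_le_pow_left₀ hl0.le hll 2
      have h3 : (T : ℝ) ^ 4 ≤ y ^ 4 := pow_le_pow_left₀ (by positivity) hTy 4
      have h4 : 24 * (W : ℝ) ≤ η * y := by
        rw [div_le_iff₀ hη] at hyW
        linarith
      have h5 : η * y ≤ η * y ^ 2 := mul_le_mul_of_nonneg_left (le_self_pow₀ (by linarith) (by norm_num)) hη.le
      calc 24 * W * (R : ℝ) ^ 3 * (Real.log H) ^ 2 * l ^ 2 * (T : ℝ) ^ 4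
          ≤ 24 * W * (y ^ 2) ^ 3 * y ^ 2 * y ^ 2 * y ^ 4 := by gcongr
        _ = (24 * W) * y ^ 14 := by ring
        _ ≤ (η * y ^ 2) * y ^ 14 := mul_le_mul_of_nonneg_right (h4.trans h5) (by positivity)
        _ = η * M := by rw [← hy16]; ring
    exact H2b_final hMR hl1 (by linarith) hsR1 hsR2 hHR hKl0 (by linarith) (by linarith) hg hwR hW0.le hG hA hA2 hB hC

end Pool.Agent.Lib.MP_bae66e_nt.E2
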